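import Pool.Agent.Run7.h606.DB.Grp

/-!
# Unfolding along amenable sets of vertices
-/

set_option autoImplicit false
set_option linter.unusedSectionVars false

namespace Pool.Agent.Run7.h606.DB

open Pool.Agent.W907.SG Pool.Agent.R580.CD Pool.Agent.W461.SGN Pool.Agent.W338.SG

/-- adding a vertex whose link has at most `κ` elements -/
theorem beta_vert {V X : Type} [Fintype V] [LinearOrder V] [Fintype X] (G : SimpleGraph V) (a : V → X → X)
    (inv : ∀ v x, a v (a v x) = x) (comm : ∀ u v, G.Adj u v → ∀ x, a u (a v x) = a v (a u x)) (B : Set V) {w : V}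
    (hw : w ∉ B) {κ : ℕ} (hκ : (G.neighborSet w).ncard ≤ κ) (i : ℕ) :
    beta G (pull ℝ a) (insert w B) ∅ i ≤ beta G (pull ℝ a) B ∅ i + 2 ^ κ * Fintype.card X := by
  classical
  cases i with
  | zero =>
    exact ((vert V ℝ (X → ℝ) G (pull ℝ a) B ∅ w hw (by simp)).1).trans (Nat.le_add_right _ _)
  | succ j =>
    refine ((vert V ℝ (X → ℝ) G (pull ℝ a) B ∅ w hw (by simp)).2 j).trans (Nat.add_le_add_left ?_ _)
    have b2 := eig V ℝ (X → ℝ) G (pull ℝ a) (B ∩ G.neighborSet w) ∅ w (by norm_num)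
      (fun m => by
        funext x
        rw [pull_apply, pull_apply, inv])
      (fun u hu m => by
        have hu' : G.Adj u w := by
          rcases hu with hu | hu
          · exact (show G.Adj w u from hu.2).symm
          · exact absurd hu (Set.notMem_empty u)
        funext x
        rw [pull_apply, pull_apply, pull_apply, pull_apply, comm u w hu']) j
    refine b2.trans ?_
    have h3 := tr ↥(B ∩ G.neighborSet w) V ℝ (X → ℝ) G (G.induce (B ∩ G.neighborSet w)) (pull ℝ a)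
      (fun u => (u : V)) (Subtype.strictMono_coe _) (fun u u' => Iff.rfl) j
    rw [Subtype.range_coe] at h3
    rw [h3]
    refine (dim _ _ _ _ _ _ _ _).trans ?_
    have h4 : Module.finrank ℝ (X → ℝ) = Fintype.card X := by simp
    rw [h4]
    refine Nat.mul_le_mul_right _ (Nat.pow_le_pow_right (by norm_num) ?_)
    rw [← Nat.card_eq_fintype_card, Nat.card_coe_set_eq]
    exact (Set.ncard_le_ncard Set.inter_subset_right (Set.toFinite _)).trans hκ

/-- two vertices outside a full subcomplex with vanishing `ℓ²`-homology -/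
theorem bd_pair {V : Type} [Fintype V] [LinearOrder V] {G : SimpleGraph V} {v w : V} (hvw : v ≠ w)
    {i κ : ℕ} (hv : (G.neighborSet v).ncard ≤ κ) (hw : (G.neighborSet w).ncard ≤ κ)
    [Fintype ↥({v, w}ᶜ : Set V)] (hL : L2Van (G.induce ({v, w}ᶜ : Set V)) i) :
    Bd G i (1 + 2 ^ κ + 2 ^ κ) := by
  classical
  intro E hE
  obtain ⟨E1, hE1, hX1⟩ := small_restrict small tr G ({v, w}ᶜ : Set V) i hL 1
  have : Fact (Nat.Prime 3) := ⟨Nat.prime_three⟩
  obtain ⟨Y, i1, i2, P, ev, e1, e2, e3, e4⟩ := nilp 3 V G (E ∪ E1) (by decide) (by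
    rw [Finset.mem_union]; exact fun h => h.elim hE hE1)
  refine ⟨Y, i1, i2, ⟨P.a, ev, P.inv, P.comm, e1, e2, e3⟩, fun g hg => e4 g (Finset.mem_union_left _ hg), ?_⟩
  have h1 := hX1 Y P.a ev P.inv P.comm e1 e2 e3 (fun g hg => e4 g (Finset.mem_union_right _ hg))
  have h2 := beta_vert G P.a P.inv P.comm ({v, w}ᶜ : Set V) (w := w) (by simp) hw i
  have h3 := beta_vert G P.a P.inv P.comm (insert w ({v, w}ᶜ : Set V)) (w := v) (by simp [hvw]) hv i
  have h4 : insert v (insert w ({v, w}ᶜ : Set V)) = Set.univ := by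
    ext u
    simp only [Set.mem_insert_iff, Set.mem_compl_iff, Set.mem_singleton_iff, Set.mem_univ, iff_true]
    tauto
  rw [h4] at h3
  show (beta G (pull ℝ P.a) Set.univ ∅ i : ℝ) ≤ (1 + 2 ^ κ + 2 ^ κ) * Fintype.card Y
  have h5 : beta G (pull ℝ P.a) Set.univ ∅ i ≤ (1 + 2 ^ κ + 2 ^ κ) * Fintype.card Y := by
    rw [one_mul] at h1
    rw [add_mul, add_mul, one_mul]
    omega
  exact_mod_cast h5

/-- Each vertex of `A` is adjacent to all other vertices of `A` with at most one exception: the special subgroup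
generated by `A` is amenable, a product of groups of order two and infinite dihedral groups. -/
def Amen {V : Type} (G : SimpleGraph V) (A : Set V) : Prop :=
  ∀ a ∈ A, ∀ b ∈ A, ∀ c ∈ A, b ≠ a → c ≠ a → ¬ G.Adj a b → ¬ G.Adj a c → b = c

/-- properties of pairs of a finite graph and a set of vertices -/
abbrev PP : Type 1 := ∀ (V : Type) [Fintype V] [LinearOrder V], SimpleGraph V → Set V → Prop

/-- the preimage in the double of a set of vertices -/
def pre {V : Type} [Fintype V] [LinearOrder V] (G : SimpleGraph V) (v : V) (B : Set V) : Set (DV G v) :=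
  {p | (ofLex (p : V ×ₗ Bool)).1 ∈ B}

/-- The property `P` is closed under doubling at the vertices outside of the set and under passing to full subgraphs
which contain the set. -/
structure Clo (P : PP) : Prop where
  dbl : ∀ (V : Type) [Fintype V] [LinearOrder V] (G : SimpleGraph V) (B : Set V) (v : V), v ∉ B → P V G B →
    P (DV G v) (DG G v) (pre G v B)
  res : ∀ (V : Type) [Fintype V] [LinearOrder V] (G : SimpleGraph V) (B s : Set V) [Fintype s], B ⊆ s → P V G B →
    P s (G.induce s) {x | (x : V) ∈ B}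

section Step

variable {V : Type} [Fintype V] [LinearOrder V] {G : SimpleGraph V} {v : V}

theorem dv_fst_ne (p : DV G v) : (ofLex (p : V ×ₗ Bool)).1 ≠ v := by
  rcases dv_cases G v p with ⟨u, hu, rfl⟩ | ⟨u, hu, rfl⟩
  · exact hu
  · exact hu

open Classical in
/-- the bad vertices of the double: `v` is sent to the second copy of `w`, the other vertices to the first copies -/
noncomputable def ff (G : SimpleGraph V) (v w : V) (hw : w ≠ v) (u : V) : DV G v :=
  if h : u = v then ⟨ic1 G v w, mem1 G v hw⟩ else ⟨ic0 u, mem0 G v h⟩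

theorem ff_v {w : V} (hw : w ≠ v) : ff G v w hw v = ⟨ic1 G v w, mem1 G v hw⟩ := dif_pos rfl

theorem ff_ne {w : V} (hw : w ≠ v) {u : V} (hu : u ≠ v) : ff G v w hw u = ⟨ic0 u, mem0 G v hu⟩ := dif_neg hu

theorem adj00 {x y : V} (hx : x ≠ v) (hy : y ≠ v) :
    (DG G v).Adj ⟨ic0 x, mem0 G v hx⟩ ⟨ic0 y, mem0 G v hy⟩ ↔ G.Adj x y :=
  (dbl_adj0 G v x hx y hy).symm

theorem adj11 {x y : V} (hx : x ≠ v) (hy : y ≠ v) :
    (DG G v).Adj ⟨ic1 G v x, mem1 G v hx⟩ ⟨ic1 G v y, mem1 G v hy⟩ ↔ G.Adj x y :=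
  (dbl_adj1 G v x hx y hy).symm

/-- The bad vertices of the double, for a pair. -/
theorem pre_sub {A : Set V} {w : V} (hw : w ≠ v) (hA : ∀ u ∈ A, u ≠ v → u ≠ w → G.Adj v u) (_hwA : w ∈ A)
    (hvA : v ∈ A) : pre G v A ⊆ ff G v w hw '' A := by
  intro p hp
  rcases dv_cases G v p with ⟨u, hu, rfl⟩ | ⟨u, hu, rfl⟩
  · have hp : u ∈ A := hp
    exact ⟨u, hp, ff_ne hw hu⟩
  · have hp : u ∈ A := hp
    by_cases huw : u = w
    · refine ⟨v, hvA, ?_⟩
      rw [ff_v]
      exact Subtype.ext (congrArg (ic1 G v) huw.symm)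
    · refine ⟨u, hp, ?_⟩
      rw [ff_ne hw hu]
      exact Subtype.ext (ic_eq G v (hA u hp hu huw)).symm

theorem ff_adj {A : Set V} {w : V} (hw : w ≠ v) (hn : ¬ G.Adj v w) (hA : ∀ u ∈ A, u ≠ v → u ≠ w → G.Adj v u)
    (hA' : ∀ u ∈ A, u ≠ v → u ≠ w → G.Adj w u) {x y : V} (hx : x ∈ A) (hy : y ∈ A) :
    (DG G v).Adj (ff G v w hw x) (ff G v w hw y) ↔ G.Adj x y := by
  have key : ∀ y ∈ A, y ≠ v → ((DG G v).Adj (ff G v w hw v) (ff G v w hw y) ↔ G.Adj v y) := by
    intro y hy hyv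
    rw [ff_v, ff_ne hw hyv]
    by_cases hyw : y = w
    · subst hyw
      refine ⟨fun h => absurd h.1 (G.loopless.irrefl _), fun h => absurd h hn⟩
    · have h1 := hA y hy hyv hyw
      have h2 := hA' y hy hyv hyw
      refine ⟨fun _ => h1, fun _ => ?_⟩
      have h3 := (adj11 (G := G) hw hyv).2 h2
      have h4 : (⟨ic1 G v y, mem1 G v hyv⟩ : DV G v) = ⟨ic0 y, mem0 G v hyv⟩ := Subtype.ext (ic_eq G v h1)
      rw [h4] at h3
      exact h3
  by_cases hxv : x = v
  · subst hxv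
    by_cases hyv : y = x
    · subst hyv
      exact ⟨fun h => absurd h ((DG G y).loopless.irrefl _), fun h => absurd h (G.loopless.irrefl _)⟩
    · exact key y hy hyv
  · by_cases hyv : y = v
    · subst hyv
      rw [(DG G y).adj_comm, G.adj_comm]
      exact key x hx hxv
    · rw [ff_ne hw hxv, ff_ne hw hyv]
      exact adj00 hxv hyv

theorem amen_image {A : Set V} {w : V} (hw : w ≠ v) (hn : ¬ G.Adj v w) (hA : ∀ u ∈ A, u ≠ v → u ≠ w → G.Adj v u)
    (hA' : ∀ u ∈ A, u ≠ v → u ≠ w → G.Adj w u) (h : Amen G A) : Amen (DG G v) (ff G v w hw '' A) := by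
  rintro _ ⟨a, ha, rfl⟩ _ ⟨b, hb, rfl⟩ _ ⟨c, hc, rfl⟩ hba hca h1 h2
  rw [ff_adj hw hn hA hA' ha hb] at h1
  rw [ff_adj hw hn hA hA' ha hc] at h2
  rw [h a ha b hb c hc (fun e => hba (by rw [e])) (fun e => hca (by rw [e])) h1 h2]

theorem Amen.mono {A A' : Set V} (h : Amen G A) (hA : A' ⊆ A) : Amen G A' :=
  fun a ha b hb c hc => h a (hA ha) b (hA hb) c (hA hc)

/-- the links of the copies of a vertex which is not adjacent to `v` -/
theorem deg0 {w : V} (hw : w ≠ v) (hn : ¬ G.Adj v w) :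
    ((DG G v).neighborSet ⟨ic0 w, mem0 G v hw⟩).ncard ≤ (G.neighborSet w).ncard := by
  classical
  have h0 : (ic0 w : V ×ₗ Bool) ∉ hB G v := by
    rintro ⟨y, _, hy⟩
    obtain ⟨rfl, h1⟩ := ic_ne G v hy
    exact hn h1
  refine Set.ncard_le_ncard_of_injOn (fun p => (ofLex (p : V ×ₗ Bool)).1) (fun p hp => hp.1) ?_ (Set.toFinite _)
  have h1 : ∀ p ∈ (DG G v).neighborSet ⟨ic0 w, mem0 G v hw⟩, (p : V ×ₗ Bool) ∈ hA v := by
    rintro p ⟨_, h2 | h2⟩
    · exact h2.2
    · exact absurd h2.1 h0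
  intro p hp q hq hpq
  obtain ⟨x, hx, hx2⟩ := h1 p hp
  obtain ⟨y, hy, hy2⟩ := h1 q hq
  apply Subtype.ext
  beta_reduce at hpq
  rw [← hx2, ← hy2] at hpq ⊢
  have hpq : x = y := hpq
  rw [hpq]

theorem deg1 {w : V} (hw : w ≠ v) (hn : ¬ G.Adj v w) :
    ((DG G v).neighborSet ⟨ic1 G v w, mem1 G v hw⟩).ncard ≤ (G.neighborSet w).ncard := by
  classical
  have h0 : (ic1 G v w : V ×ₗ Bool) ∉ hA v := by
    rintro ⟨y, _, hy⟩
    obtain ⟨rfl, h1⟩ := ic_ne G v hy.symm
    exact hn h1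
  refine Set.ncard_le_ncard_of_injOn (fun p => (ofLex (p : V ×ₗ Bool)).1) (fun p hp => hp.1) ?_ (Set.toFinite _)
  have h1 : ∀ p ∈ (DG G v).neighborSet ⟨ic1 G v w, mem1 G v hw⟩, (p : V ×ₗ Bool) ∈ hB G v := by
    rintro p ⟨_, h2 | h2⟩
    · exact absurd h2.1 h0
    · exact h2.2
  intro p hp q hq hpq
  obtain ⟨x, hx, hx2⟩ := h1 p hp
  obtain ⟨y, hy, hy2⟩ := h1 q hq
  apply Subtype.ext
  beta_reduce at hpq
  rw [← hx2, ← hy2] at hpq ⊢
  have hpq : x = y := hpq
  rw [hpq]

end Step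

/-- the iteration for a pair -/
theorem pair_iter {P : PP} (hP : Clo P) {i m κ : ℕ}
    (ih : ∀ (V : Type) [Fintype V] [LinearOrder V] (G : SimpleGraph V) (B : Set V), P V G B → Amen G Bᶜ →
      (Bᶜ).ncard ≤ m → L2Van G i) :
    ∀ (k : ℕ) (V : Type) [Fintype V] [LinearOrder V] (G : SimpleGraph V) (B : Set V) (v w : V), P V G B →
      Amen G Bᶜ → (Bᶜ).ncard ≤ m + 1 → v ∉ B → w ∉ B → w ≠ v → ¬ G.Adj v w →
      (G.neighborSet v).ncard ≤ κ → (G.neighborSet w).ncard ≤ κ → Bd G i ((1 + 2 ^ κ + 2 ^ κ) / 2 ^ k) := by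
  classical
  intro k
  induction k with
  | zero =>
    intro V _ _ G B v w h1 h2 h3 hv hw hwv hn hκ hκ'
    rw [pow_zero, div_one]
    refine bd_pair hwv.symm hκ hκ' ?_
    have hBs : B ⊆ ({v, w}ᶜ : Set V) := by
      intro x hx hx2
      rcases hx2 with rfl | hx2
      · exact hv hx
      · rw [Set.mem_singleton_iff] at hx2
        exact hw (hx2 ▸ hx)
    refine ih _ _ _ (hP.res V G B _ hBs h1) ?_ ?_
    · intro a ha b hb c hc hba hca hab hac
      exact Subtype.ext (h2 a ha b hb c hc (fun e => hba (Subtype.ext e)) (fun e => hca (Subtype.ext e)) hab hac)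
    · have h5 : ({x : ↥({v, w}ᶜ : Set V) | (x : V) ∈ B}ᶜ : Set _).ncard ≤ ((Bᶜ) \ {v}).ncard := by
        refine Set.ncard_le_ncard_of_injOn (fun x => (x : V)) ?_ (fun x _ y _ h => Subtype.ext h) (Set.toFinite _)
        intro x hx
        refine ⟨hx, fun e => x.2 (Or.inl e)⟩
      have h6 : ((Bᶜ) \ {v}).ncard + 1 = (Bᶜ).ncard := Set.ncard_sdiff_singleton_add_one hv (Set.toFinite _)
      omega
  | succ k ihk =>
    intro V _ _ G B v w h1 h2 h3 hv hw hwv hn hκ hκ'
    have hA : ∀ u ∈ Bᶜ, u ≠ v → u ≠ w → G.Adj v u := by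
      intro u hu huv huw
      by_contra hcon
      exact huw (h2 v hv u hu w hw huv hwv hcon hn)
    have hA' : ∀ u ∈ Bᶜ, u ≠ v → u ≠ w → G.Adj w u := by
      intro u hu huv huw
      by_contra hcon
      exact huv (h2 w hw u hu v hv huw hwv.symm hcon (fun h => hn h.symm))
    have hsub : (pre G v B)ᶜ ⊆ ff G v w hwv '' Bᶜ := pre_sub (A := Bᶜ) hwv hA hw hv
    have h4 := ihk (DV G v) (DG G v) (pre G v B) (⟨ic0 w, mem0 G v hwv⟩) (⟨ic1 G v w, mem1 G v hwv⟩)
      (hP.dbl V G B v hv h1) ((amen_image hwv hn hA hA' h2).mono hsub) ?_ hw hw ?_ ?_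
      ((deg0 hwv hn).trans hκ') ((deg1 hwv hn).trans hκ')
    · have h5 := h4.unfold
      rw [div_div, ← pow_succ] at h5
      exact h5
    · exact ((Set.ncard_le_ncard hsub (Set.toFinite _)).trans (Set.ncard_image_le (Set.toFinite _))).trans h3
    · intro h
      have h5 := congrArg Subtype.val h
      exact hn (ic_ne G v h5).2
    · intro h
      exact G.loopless.irrefl _ h.1

/-- **Unfolding along an amenable set of vertices.** -/
theorem amen_main {P : PP} (hP : Clo P) {i : ℕ}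
    (h0 : ∀ (V : Type) [Fintype V] [LinearOrder V] (G : SimpleGraph V), P V G Set.univ → L2Van G i) :
    ∀ (m : ℕ) (V : Type) [Fintype V] [LinearOrder V] (G : SimpleGraph V) (B : Set V), P V G B → Amen G Bᶜ →
      (Bᶜ).ncard ≤ m → L2Van G i := by
  classical
  intro m
  induction m with
  | zero =>
    intro V _ _ G B h1 h2 h3
    have h4 : Bᶜ = ∅ := (Set.ncard_eq_zero (Set.toFinite _)).1 (Nat.le_zero.1 h3)
    rw [Set.compl_empty_iff] at h4
    exact h0 V G (h4 ▸ h1)
  | succ m ih =>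
    intro V _ _ G B h1 h2 h3
    rcases Set.eq_empty_or_nonempty (Bᶜ) with h4 | ⟨v, hv⟩
    · rw [Set.compl_empty_iff] at h4
      exact h0 V G (h4 ▸ h1)
    · by_cases hp : ∃ w ∈ Bᶜ, w ≠ v ∧ ¬ G.Adj v w
      · obtain ⟨w, hw, hwv, hn⟩ := hp
        refine l2_of_bd fun c hc => ?_
        set κ := (G.neighborSet v).ncard + (G.neighborSet w).ncard with hκ
        obtain ⟨k, hk⟩ := pow_unbounded_of_one_lt ((1 + 2 ^ κ + 2 ^ κ : ℝ) / c) (show (1 : ℝ) < 2 by norm_num)
        refine (pair_iter hP ih k V G B v w h1 h2 h3 hv hw hwv hn (κ := κ) (by omega) (by omega)).mono ?_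
        rw [div_lt_iff₀ hc] at hk
        rw [div_le_iff₀ (by positivity)]
        linarith
      · push Not at hp
        have hsub : (pre G v B)ᶜ ⊆ (fun p => (ofLex (p : V ×ₗ Bool)).1) ⁻¹' (Bᶜ) := fun p hp => hp
        have hA : ∀ p ∈ (pre G v B)ᶜ, ∃ u, ∃ h : u ≠ v, u ∈ Bᶜ ∧ p = ⟨ic0 u, mem0 G v h⟩ := by
          intro p hpp
          rcases dv_cases G v p with ⟨u, hu, rfl⟩ | ⟨u, hu, rfl⟩
          · exact ⟨u, hu, hpp, rfl⟩
          · exact ⟨u, hu, hpp, Subtype.ext (ic_eq G v (hp u hpp hu))⟩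
        have h5 : L2Van (DG G v) i := by
          refine ih (DV G v) (DG G v) (pre G v B) (hP.dbl V G B v hv h1) ?_ ?_
          · intro a ha b hb c hc hba hca hab hac
            obtain ⟨x, hx, hxB, rfl⟩ := hA a ha
            obtain ⟨y, hy, hyB, rfl⟩ := hA b hb
            obtain ⟨z, hz, hzB, rfl⟩ := hA c hc
            rw [adj00 hx hy] at hab
            rw [adj00 hx hz] at hac
            have := h2 x hxB y hyB z hzB (fun e => hba (by subst e; rfl)) (fun e => hca (by subst e; rfl)) hab hac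
            subst this
            rfl
          · have h6 : ((pre G v B)ᶜ).ncard ≤ ((Bᶜ) \ {v}).ncard := by
              refine Set.ncard_le_ncard_of_injOn (fun p => (ofLex (p : V ×ₗ Bool)).1) ?_ ?_ (Set.toFinite _)
              · intro p hpp
                exact ⟨hpp, dv_fst_ne p⟩
              · intro p hpp q hq hpq
                obtain ⟨x, hx, hxB, rfl⟩ := hA p hpp
                obtain ⟨y, hy, hyB, rfl⟩ := hA q hq
                have hpq : x = y := hpq
                subst hpq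
                rfl
            have h7 : ((Bᶜ) \ {v}).ncard + 1 = (Bᶜ).ncard := Set.ncard_sdiff_singleton_add_one hv (Set.toFinite _)
            omega
        refine l2_of_bd fun c hc => ?_
        have h6 := (bd_of_l2 h5 (c := 2 * c) (by linarith)).unfold
        rw [mul_div_cancel_left₀ c (by norm_num)] at h6
        exact h6

end Pool.Agent.Run7.h606.DB
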