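import Pool.Agent.Run7.h606.DB.Grp
import Pool.Agent.N613.RP.Link
import Pool.Agent.TH652.QDef

/-!
# Euler characteristics and doubles, real homology spheres and doubles
-/

set_option autoImplicit false
set_option linter.unusedSectionVars false

namespace Pool.Agent.Run7.h606.DB

open Polynomial Pool.Agent.W907.SG Pool.Agent.R580.CD
open Pool.Agent.TH652.Above (HSph)

theorem chiW_eq {V : Type} [Fintype V] [LinearOrder V] (G : SimpleGraph V) :
    chiW G = (fp G Set.univ).eval₂ (Int.castRingHom ℚ) (-1 / 2) := by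
  classical
  unfold chiW fp
  rw [eval₂_finsetSum]
  refine Finset.sum_congr rfl fun T _ => ?_
  by_cases hT : G.IsClique (T : Set V)
  · rw [if_pos hT, if_pos ⟨hT, Set.subset_univ _⟩, eval₂_pow, eval₂_X]
  · rw [if_neg hT, if_neg fun h => hT h.1, eval₂_zero]

theorem fp_double {V : Type} [Fintype V] [LinearOrder V] (G : SimpleGraph V) (v : V) :
    fp (DG G v) Set.univ = 2 * fp G Set.univ - (1 + 2 * X) * fp G (lnk G {v}) := by
  classical
  have h1 := fp_map (G := DG G v) (H := dbl G v) (Function.Embedding.subtype _) (A := Set.univ)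
    (fun x _ y _ => Iff.rfl)
  have h2 := Pool.Agent.N613.RP.near (G := G) (v := v) (R := ∅) (by simp)
  have e1 : lnk (dbl G v) ((∅ : Finset V).map ic0) = Set.univ := by
    ext x
    simp [lnk]
  have e2 : lnk G (∅ : Finset V) = Set.univ := by
    ext x
    simp [lnk]
  rw [e1, e2, Set.inter_univ, insert_empty_eq] at h2
  rw [← h1, ← h2]
  congr 1
  rw [Set.image_univ]
  exact Subtype.range_coe

/-- the Euler characteristic of a double -/
theorem chi_double {V : Type} [Fintype V] [LinearOrder V] (G : SimpleGraph V) (v : V) :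
    chiW (DG G v) = 2 * chiW G := by
  rw [chiW_eq, chiW_eq, fp_double, eval₂_sub, eval₂_mul, eval₂_mul, eval₂_add, eval₂_mul, eval₂_X, eval₂_one]
  have h : (2 : ℤ[X]).eval₂ (Int.castRingHom ℚ) (-1 / 2) = 2 := by
    rw [show (2 : ℤ[X]) = C 2 from rfl, eval₂_C]
    norm_num
  rw [h]
  ring

theorem betti_real {V : Type} [Fintype V] [LinearOrder V] (G : SimpleGraph V) (A : Set V) (i : ℕ) :
    betti ℝ G A i = beta G (fun _ => (- LinearMap.id : ℝ →ₗ[ℝ] ℝ)) A ∅ i := by
  have h : ∀ i, CC ℝ G A i = KK G (fun _ => (- LinearMap.id : ℝ →ₗ[ℝ] ℝ)) A ∅ i := by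
    intro i
    ext c
    rw [mem_CC, mem_KK]
    exact ⟨fun h => ⟨h, fun T t _ => rfl⟩, fun h => h.1⟩
  unfold betti beta Zy ZZ By BB
  rw [h, h]

theorem hsph_iff {V : Type} [Fintype V] [LinearOrder V] {G : SimpleGraph V} {n : ℕ} :
    HSph n G ↔ Sph ℝ n G := by
  constructor
  · intro h T hT i
    rw [betti_real]
    exact h T hT i
  · intro h T hT i
    have h1 := h T hT i
    rw [betti_real] at h1
    exact h1

/-- the double of a homology sphere -/
theorem sph_double {V : Type} [Fintype V] [LinearOrder V] {F : Type} [Field F] {G : SimpleGraph V} {n : ℕ}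
    (h : Sph F n G) (v : V) : Sph F n (DG G v) := (dbl_sphOn h v).induce

end Pool.Agent.Run7.h606.DB
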