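import Pool.Agent.Run7.h606.DB.Amen
import Pool.Agent.N504.RS.Brid
import Pool.Agent.TH652.Dual7

/-!
# Full subcomplexes of flag homology spheres which are coloured off an amenable set of vertices
-/

set_option autoImplicit false
set_option linter.unusedSectionVars false

namespace Pool.Agent.Run7.h606.DB

open Pool.Agent.W907.SG Pool.Agent.W907.SM Pool.Agent.R580.CD Pool.Agent.W461.SGN Pool.Agent.W338.SG
open Pool.Agent.R782.Bal (tr2 mem_KK_tr Emb l2_emb)
open Pool.Agent.N504.RS.Two (HSph2 clq mem_clq hsph_clq)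
open Pool.Agent.TH652.Above (Q Q_emb lv_univ lv_img lv_set lv_sub)

/-! ### the two definitions of homology spheres -/

theorem betti_two {V : Type} [Fintype V] [LinearOrder V] (G : SimpleGraph V) (A : Set V) (i : ℕ) :
    betti (ZMod 2) G A i = beta G tr2 A ∅ i := by
  have h : ∀ i, CC (ZMod 2) G A i = KK G tr2 A ∅ i := by
    intro i
    ext c
    rw [mem_CC, mem_KK_tr]
  unfold betti beta Zy ZZ By BB
  rw [h, h]

theorem hsph_of_sph {V : Type} [Fintype V] [LinearOrder V] {G : SimpleGraph V} {n : ℕ} (h : Sph (ZMod 2) n G) :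
    HSph2 n G := by
  intro S hS i
  have h1 := h S hS i
  rw [betti_two] at h1
  exact h1

/-- transport along an order isomorphism -/
theorem sph_tr {U U' : Type} [Fintype U] [LinearOrder U] [Fintype U'] [LinearOrder U'] {F : Type} [Field F] {n : ℕ}
    {S : SimpleGraph U} {S' : SimpleGraph U'} (e : U ≃o U') (he : ∀ x y, S.Adj x y ↔ S'.Adj (e x) (e y))
    (h : Sph F n S) : Sph F n S' := by
  intro T hT i
  set f : U ↪ U' := e.toEquiv.toEmbedding with hf
  have hmono : StrictMono f := e.strictMono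
  set R : Finset U := T.map e.symm.toEquiv.toEmbedding with hR
  have hTR : R.map f = T := by
    rw [hR, Finset.map_map]
    ext x
    rw [Finset.mem_map]
    constructor
    · rintro ⟨y, hy, rfl⟩
      have : f (e.symm y) = y := e.apply_symm_apply y
      show f (e.symm y) ∈ T
      rw [this]
      exact hy
    · intro hx
      exact ⟨x, hx, e.apply_symm_apply x⟩
  have hRc : S.IsClique (R : Set U) := by
    intro x hx y hy hxy
    rw [he]
    refine hT ?_ ?_ fun h => hxy (e.injective h)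
    · rw [← hTR]
      exact Finset.mem_coe.2 ((Finset.mem_map' f).2 hx)
    · rw [← hTR]
      exact Finset.mem_coe.2 ((Finset.mem_map' f).2 hy)
  have h1 := lnk_map (G := S) (H := S') f (A := Set.univ) (fun x _ y _ => he x y) (Set.subset_univ (R : Set U))
  have hfu : f '' (Set.univ : Set U) = Set.univ := by
    rw [Set.image_univ]
    exact e.surjective.range_eq
  rw [hfu, Set.univ_inter, Set.univ_inter, hTR] at h1
  have h2 := betti_map (F := F) (G := S) (H := S') f hmono (A := lnk S R) (fun x _ y _ => he x y) i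
  have hcard : R.card = T.card := Finset.card_map _
  rw [h1, h2, h R hRc i, hcard]

/-- `G` is a full subgraph of the graph of a flag homology sphere over the field with two elements, of dimension
`n - 1`. -/
def Full2 (n : ℕ) {V : Type} (G : SimpleGraph V) : Prop :=
  ∃ (U : Type) (_ : Fintype U) (_ : LinearOrder U) (S : SimpleGraph U) (f : V ↪ U),
    Sph (ZMod 2) n S ∧ ∀ x y, G.Adj x y ↔ S.Adj (f x) (f y)

theorem Full2.emb {n d : ℕ} {V : Type} {G : SimpleGraph V} (h : Full2 n G) (hn : n ≤ 2 * d + 1) : Emb d G := by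
  obtain ⟨U, i1, i2, S, f, hS, hf⟩ := h
  set e : U ≃o Fin (Fintype.card U) := (Fintype.orderIsoFinOfCardEq U rfl).symm with he
  set S' : SimpleGraph (Fin (Fintype.card U)) := S.comap e.symm with hS'
  have h1 : Sph (ZMod 2) n S' := sph_tr e (fun x y => by
    rw [hS', SimpleGraph.comap_adj]
    rw [e.symm_apply_apply, e.symm_apply_apply]) hS
  refine Emb.sphere (clq S') (f.trans e.toEquiv.toEmbedding) hn (hsph_clq (hsph_of_sph h1)) fun T hT => ?_
  rw [mem_clq]
  intro x hx y hy hxy
  rw [Finset.mem_coe, Finset.mem_map] at hx hy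
  obtain ⟨x, hx, rfl⟩ := hx
  obtain ⟨y, hy, rfl⟩ := hy
  have h2 := (hf x y).1 (hT hx hy fun e => hxy (by rw [e]))
  show S.Adj (e.symm (e (f x))) (e.symm (e (f y)))
  rw [e.symm_apply_apply, e.symm_apply_apply]
  exact h2

theorem Full2.induce {n : ℕ} {V : Type} {G : SimpleGraph V} (h : Full2 n G) (A : Set V) : Full2 n (G.induce A) := by
  obtain ⟨U, i1, i2, S, f, hS, hf⟩ := h
  exact ⟨U, i1, i2, S, (Function.Embedding.subtype _).trans f, hS, fun x y => hf x y⟩

/-! ### doubles of embedded graphs -/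

section Fun

variable {V U : Type} [Fintype V] [LinearOrder V] [Fintype U] [LinearOrder U] {G : SimpleGraph V} {S : SimpleGraph U}

/-- the map between the vertex sets of the doubles -/
def fd (f : V ↪ U) (p : V ×ₗ Bool) : U ×ₗ Bool := toLex (f (ofLex p).1, (ofLex p).2)

theorem fd0 (f : V ↪ U) (u : V) : fd f (ic0 u) = ic0 (f u) := rfl

theorem fd1 (f : V ↪ U) (hf : ∀ x y, G.Adj x y ↔ S.Adj (f x) (f y)) (v u : V) :
    fd f (ic1 G v u) = ic1 S (f v) (f u) := by
  classical
  by_cases h : G.Adj v u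
  · rw [ic_eq G v h, ic_eq S (f v) ((hf v u).1 h)]
    rfl
  · have h' : ¬ S.Adj (f v) (f u) := fun h1 => h ((hf v u).2 h1)
    show toLex (f u, if G.Adj v u then false else true) = toLex (f u, if S.Adj (f v) (f u) then false else true)
    rw [if_neg h, if_neg h']

theorem fd_inj (f : V ↪ U) : Function.Injective (fd f) := by
  intro p q h
  have h1 : f (ofLex p).1 = f (ofLex q).1 := congrArg (fun r => (ofLex r).1) h
  have h2 : (ofLex p).2 = (ofLex q).2 := congrArg (fun r => (ofLex r).2) h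
  exact congrArg toLex (Prod.ext (f.injective h1) h2)

theorem fd_hA (f : V ↪ U) (v : V) (p : V ×ₗ Bool) : fd f p ∈ hA (f v) ↔ p ∈ hA v := by
  constructor
  · rintro ⟨y, hy, hy2⟩
    refine ⟨(ofLex p).1, ?_, ?_⟩
    · intro e
      apply hy
      have h1 : y = f (ofLex p).1 := congrArg (fun r => (ofLex r).1) hy2
      rw [Set.mem_singleton_iff] at e ⊢
      rw [h1, e]
    · have h2 : false = (ofLex p).2 := congrArg (fun r => (ofLex r).2) hy2
      exact congrArg toLex (Prod.ext rfl h2)
  · rintro ⟨x, hx, rfl⟩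
    exact ⟨f x, fun e => hx (f.injective e), rfl⟩

theorem fd_hB (f : V ↪ U) (hf : ∀ x y, G.Adj x y ↔ S.Adj (f x) (f y)) (v : V) (p : V ×ₗ Bool) :
    fd f p ∈ hB S (f v) ↔ p ∈ hB G v := by
  constructor
  · rintro ⟨y, hy, hy2⟩
    have h1 : y = f (ofLex p).1 := congrArg (fun r => (ofLex r).1) hy2
    refine ⟨(ofLex p).1, ?_, ?_⟩
    · intro e
      apply hy
      rw [Set.mem_singleton_iff] at e ⊢
      rw [h1, e]
    · apply fd_inj f
      rw [fd1 f hf, ← h1]
      exact hy2
  · rintro ⟨x, hx, rfl⟩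
    exact ⟨f x, fun e => hx (f.injective e), (fd1 f hf v x).symm⟩

/-- the double of a full subgraph is a full subgraph of the double -/
def fD (f : V ↪ U) (hf : ∀ x y, G.Adj x y ↔ S.Adj (f x) (f y)) (v : V) : DV G v ↪ DV S (f v) :=
  ⟨fun p => ⟨fd f p, p.2.imp (fd_hA f v p).2 (fd_hB f hf v p).2⟩, fun _ _ h =>
    Subtype.ext (fd_inj f (congrArg Subtype.val h))⟩

theorem fD_adj (f : V ↪ U) (hf : ∀ x y, G.Adj x y ↔ S.Adj (f x) (f y)) (v : V) (p q : DV G v) :
    (DG G v).Adj p q ↔ (DG S (f v)).Adj (fD f hf v p) (fD f hf v q) := by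
  show (G.Adj _ _ ∧ _) ↔ (S.Adj _ _ ∧ _)
  refine and_congr (hf _ _) ?_
  refine or_congr (and_congr ?_ ?_) (and_congr ?_ ?_)
  · exact (fd_hA f v p).symm
  · exact (fd_hA f v q).symm
  · exact (fd_hB f hf v p).symm
  · exact (fd_hB f hf v q).symm

end Fun

theorem Full2.double {n : ℕ} {V : Type} [Fintype V] [LinearOrder V] {G : SimpleGraph V} (h : Full2 n G) (v : V) :
    Full2 n (DG G v) := by
  obtain ⟨U, i1, i2, S, f, hS, hf⟩ := h
  exact ⟨DV S (f v), inferInstance, inferInstance, DG S (f v), fD f hf v, (dbl_sphOn hS (f v)).induce,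
    fun p q => fD_adj f hf v p q⟩

/-! ### colourings -/

/-- full subgraphs of homology spheres which are coloured on the set `B` -/
def PC (n d : ℕ) : PP := fun V _ _ G B => Full2 n G ∧
  ∃ c : V → Fin (d + 1), ∀ x ∈ B, ∀ y ∈ B, G.Adj x y → c x ≠ c y

theorem clo_PC (n d : ℕ) : Clo (PC n d) where
  dbl V _ _ G B v _ h := by
    obtain ⟨h1, c, hc⟩ := h
    exact ⟨h1.double v, fun p => c (ofLex (p : V ×ₗ Bool)).1, fun p hp q hq hpq => hc _ hp _ hq hpq.1⟩
  res V _ _ G B s _ _ h := by
    obtain ⟨h1, c, hc⟩ := h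
    exact ⟨h1.induce s, fun p => c p, fun p hp q hq hpq => hc _ hp _ hq hpq⟩

/-- **Theorem.** Let `G` be a full subgraph of a flag homology sphere of dimension at most `2 d`, and let `A` be an
amenable set of vertices such that the complement of `A` is properly coloured by `d + 1` colours. Then the
`ℓ²`-homology of the Davis complex of `W G` vanishes in the degrees `≥ d + 1`. -/
theorem l2_amen {n d : ℕ} {V : Type} [Fintype V] [LinearOrder V] {G : SimpleGraph V} (h : Full2 n G)
    (hn : n ≤ 2 * d + 1) (A : Set V) (hA : Amen G A) (c : V → Fin (d + 1))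
    (hc : ∀ x, x ∉ A → ∀ y, y ∉ A → G.Adj x y → c x ≠ c y) (i : ℕ) (hi : d < i) : L2Van G i := by
  refine amen_main (clo_PC n d) (i := i) ?_ _ V G Aᶜ ⟨h, c, fun x hx y hy => hc x hx y hy⟩
    (by rw [compl_compl]; exact hA) le_rfl
  rintro V _ _ G ⟨h1, c, hc⟩
  exact l2_emb (h1.emb hn) c (fun u w huw => hc u trivial w trivial huw) i hi

/-- the same for all full subgraphs -/
theorem Q_amen {n d : ℕ} {V : Type} [Finite V] {G : SimpleGraph V} (h : Full2 n G)
    (hn : n ≤ 2 * d + 1) (A : Set V) (hA : Amen G A) (c : V → Fin (d + 1))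
    (hc : ∀ x, x ∉ A → ∀ y, y ∉ A → G.Adj x y → c x ≠ c y) : Q (2 * d + 1) G := by
  refine ⟨inferInstance, fun B i hi _ _ => ?_⟩
  refine l2_amen (h.induce B) hn {x | (x : V) ∈ A} ?_ (fun x => c x) (fun x hx y hy => hc x hx y hy) i (by omega)
  intro a ha b hb c hc hba hca hab hac
  exact Subtype.ext (hA a ha b hb c hc (fun e => hba (Subtype.ext e)) (fun e => hca (Subtype.ext e)) hab hac)

/-- **Unfolding** for the vanishing above the middle of all full subcomplexes. -/
theorem Q_unfold {n : ℕ} {V : Type} [Fintype V] [LinearOrder V] (G : SimpleGraph V) (v : V) (h : Q n (DG G v)) :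
    Q n G := by
  classical
  refine ⟨inferInstance, fun A i hi => ?_⟩
  by_cases hv : v ∈ A
  · intro _ _
    set f : ↥A ↪ V := Function.Embedding.subtype _ with hf
    have hfa : ∀ x y, (G.induce A).Adj x y ↔ G.Adj (f x) (f y) := fun x y => Iff.rfl
    have h1 : Q n (DG (G.induce A) ⟨v, hv⟩) := Q_emb (DG G v) _ ⟨fD f hfa ⟨v, hv⟩, fun {p q} =>
      (fD_adj f hfa ⟨v, hv⟩ p q).symm⟩ h
    have h2 := (lv_univ _ i).1 (h1.2 Set.univ i hi)
    exact l2_double.1 (h2 _ _)
  · have h1 := h.2 ((fun u : ↥A => (⟨ic0 (u : V), mem0 G v (fun e => hv (e ▸ u.2))⟩ : DV G v)) '' Set.univ) i hi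
    have h2 := (lv_img (G := DG G v) (H := G.induce A)
      (fun u : ↥A => (⟨ic0 (u : V), mem0 G v (fun e => hv (e ▸ u.2))⟩ : DV G v)) Set.univ ?_ ?_ i).2 h1
    · exact (lv_univ _ i).1 h2
    · intro a _ b _ hab
      have h3 := congrArg Subtype.val hab
      exact Subtype.ext (ic0.injective h3)
    · intro a _ b _
      exact adj00 (show (a : V) ≠ v from fun e => hv (e ▸ a.2)) (show (b : V) ≠ v from fun e => hv (e ▸ b.2))

end Pool.Agent.Run7.h606.DB
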