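import Pool.Agent.Run7.h606.DB.LDef
import Pool.Agent.Run7.h606.DB.Col
import Pool.Agent.N504.RS.ClassC
import Pool.Agent.R703.MO.Main

/-!
# Vanishing for the classes `LR n` and `LQ b`
-/

set_option autoImplicit false
set_option linter.unusedSectionVars false

namespace Pool.Agent.Run7.h606.DB

open Pool.Agent.W907.SG Pool.Agent.W907.SM Pool.Agent.R580.CD Pool.Agent.W461.SGN Pool.Agent.W338.SG
open Pool.Agent.TH652.Join (join ljoin)
open Pool.Agent.TH652.Glue (lglue)
open Pool.Agent.TH652.Above (Q HSph lv_img lv_set lv_sub lv_univ singer_of_above chi_sign Q_emb Q_join Q_del Q_loc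
  Q_vert Q_glue)
open Pool.Agent.R781.VS (con NoSq l2split l2vdel Q_split)
open Pool.Agent.R782.Bal (lv_susp lv_relsub Q_susp)
open Pool.Agent.R703.MO (VB)

/-- the cliques inside of `B` have at most `d` elements -/
def LowD (d : ℕ) : PP := fun V _ _ G B => ∀ T : Finset V, G.IsClique (T : Set V) → (T : Set V) ⊆ B → T.card ≤ d

theorem clo_lowD (d : ℕ) : Clo (LowD d) where
  dbl := by
    classical
    intro V _ _ G B v _ hB T hT hTB
    have hinj : Set.InjOn (fun p : DV G v => (ofLex (p : V ×ₗ Bool)).1) (T : Set (DV G v)) := by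
      intro p hp q hq hpq
      by_contra hne
      have h1 : G.Adj (ofLex (p : V ×ₗ Bool)).1 (ofLex (q : V ×ₗ Bool)).1 := (hT hp hq hne).1
      beta_reduce at hpq
      rw [hpq] at h1
      exact G.loopless.irrefl _ h1
    rw [← Finset.card_image_of_injOn hinj]
    refine hB _ ?_ ?_
    · intro x hx y hy hxy
      rw [Finset.mem_coe, Finset.mem_image] at hx hy
      obtain ⟨p, hp, rfl⟩ := hx
      obtain ⟨q, hq, rfl⟩ := hy
      exact (hT hp hq fun e => hxy (by rw [e])).1
    · intro x hx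
      rw [Finset.mem_coe, Finset.mem_image] at hx
      obtain ⟨p, hp, rfl⟩ := hx
      exact hTB hp
  res := by
    classical
    intro V _ _ G B s _ _ hB T hT hTB
    rw [← Finset.card_map (Function.Embedding.subtype _)]
    refine hB _ ?_ ?_
    · intro x hx y hy hxy
      rw [Finset.mem_coe, Finset.mem_map] at hx hy
      obtain ⟨p, hp, rfl⟩ := hx
      obtain ⟨q, hq, rfl⟩ := hy
      exact hT hp hq fun e => hxy (by rw [e])
    · intro x hx
      rw [Finset.mem_coe, Finset.mem_map] at hx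
      obtain ⟨p, hp, rfl⟩ := hx
      exact hTB hp

theorem l2_low {d : ℕ} {V : Type} [Fintype V] [LinearOrder V] (G : SimpleGraph V) (A : Set V) (hA : Amen G A)
    (hT : ∀ T : Finset V, G.IsClique (T : Set V) → Disjoint (T : Set V) A → T.card ≤ d) (i : ℕ) (hi : d < i) :
    L2Van G i := by
  refine amen_main (clo_lowD d) (i := i) ?_ _ V G Aᶜ ?_ (by rw [compl_compl]; exact hA) le_rfl
  · intro V _ _ G hB c hc
    funext w T
    refine hc.supp w T ?_
    rintro ⟨h1, h2⟩
    have h3 := hB T h1 (Set.subset_univ _)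
    omega
  · intro T h1 h2
    exact hT T h1 (Set.subset_compl_iff_disjoint_right.1 h2)

theorem Q_low {d : ℕ} {V : Type} [Finite V] (G : SimpleGraph V) (A : Set V) (hA : Amen G A)
    (hT : ∀ T : Finset V, G.IsClique (T : Set V) → Disjoint (T : Set V) A → T.card ≤ d) : Q (2 * d) G := by
  classical
  refine ⟨inferInstance, fun B i hi _ _ => ?_⟩
  refine l2_low (d := d) (G.induce B) {x | (x : V) ∈ A} ?_ ?_ i (by omega)
  · intro a ha b hb c hc hba hca hab hac
    exact Subtype.ext (hA a ha b hb c hc (fun e => hba (Subtype.ext e)) (fun e => hca (Subtype.ext e)) hab hac)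
  · intro T h1 h2
    rw [← Finset.card_map (Function.Embedding.subtype _)]
    refine hT _ ?_ ?_
    · intro x hx y hy hxy
      rw [Finset.mem_coe, Finset.mem_map] at hx hy
      obtain ⟨p, hp, rfl⟩ := hx
      obtain ⟨q, hq, rfl⟩ := hy
      exact h1 hp hq fun e => hxy (by rw [e])
    · rw [Set.disjoint_left] at h2 ⊢
      intro x hx
      rw [Finset.mem_coe, Finset.mem_map] at hx
      obtain ⟨p, hp, rfl⟩ := hx
      exact h2 hp

theorem Q_of_LR {n : ℕ} {V : Type} {G : SimpleGraph V} (h : LR n G) : Q n G := by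
  induction h with
  | amen G A c h hn hA hc => exact Q_amen h hn A hA c hc
  | low G A hA hT => exact Q_low G A hA hT
  | unfold G v _ ih => exact Q_unfold G v ih
  | split G s t hst hsq _ _ _ _ ih1 ih2 ih3 ih4 => exact Q_split G s t hst hsq ih1 ih2 ih3 ih4
  | full G A _ ih => exact Q_emb G _ (SimpleGraph.Embedding.induce A) ih
  | join G H _ _ ih1 ih2 => exact Q_join G H ih1 ih2
  | susp G _ ih => exact Q_susp G ih
  | succ G _ ih => exact ⟨ih.1, fun A i hi => ih.2 A i (by omega)⟩
  | pred G _ ih => exact ⟨ih.1, fun A i hi => ih.2 A i (by omega)⟩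
  | del G s t hst _ _ ih1 ih2 => exact Q_del G s t hst ih1 ih2
  | loc G B hB _ ih => exact Q_loc G B hB ih
  | vert G v _ _ ih1 ih2 => exact Q_vert G v ih1 ih2
  | glue G A B hAB hno _ _ _ ih1 ih2 ih3 => exact Q_glue G A B hAB hno ih1 ih2 ih3
  | iso G H e _ ih => exact Q_emb G H e.some.symm.toEmbedding ih

/-- vanishing above the middle for the class `LR n` -/
theorem above_LR {n : ℕ} {V : Type} [Fintype V] [LinearOrder V] {G : SimpleGraph V} (h : LR n G) (i : ℕ)
    (hi : n < 2 * i) : L2Van G i :=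
  (lv_univ G i).1 ((Q_of_LR h).2 Set.univ i hi) _ _

theorem VB_of_LQ {b : ℕ} {V : Type} {G : SimpleGraph V} (h : LQ b G) : VB b G := by
  classical
  induction h with
  | @lr n V G h =>
    have h1 := Q_of_LR h
    exact ⟨h1.1, fun i hi => (lv_univ G i).1 (h1.2 Set.univ i (by omega))⟩
  | unfold G v _ ih =>
    exact ⟨inferInstance, fun i hi => lv_of (l2_double.1 (ih.2 i hi _ _))⟩
  | fold G v _ ih =>
    exact ⟨inferInstance, fun i hi => lv_of (l2_double.2 (ih.2 i hi _ _))⟩
  | pair M _ ih =>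
    exact ⟨inferInstance, fun i hi => lv_of (M.l2 fun k => (ih k).2 i hi)⟩
  | susp G => exact ⟨inferInstance, fun i _ => lv_susp G i⟩
  | @sph m V _ _ G hS _ ih =>
    refine ⟨ih.1, fun i _ => ?_⟩
    exact lv_of (singer_of_above hS (fun i hi => ih.2 i (by omega) _ _) i (by omega))
  | @eul m V _ _ G hS _ hχ ih =>
    refine ⟨ih.1, fun i _ => ?_⟩
    have h1 : ∀ i, i ≠ m → L2Van G i := fun i hi =>
      singer_of_above hS (fun i hi => ih.2 i (by omega) _ _) i (by omega)
    exact lv_of ((l2eul V G m h1).2 hχ i)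
  | up G _ ih => exact ⟨ih.1, fun i hi => ih.2 i (by omega)⟩
  | @sub b V _ G O lo h h1 h2 _ _ ih1 ih2 =>
    exact ⟨inferInstance, lv_relsub G O lo h b h1 h2 (fun x hx i => (ih1 x hx).2 i (Nat.zero_le _)) ih2.2⟩
  | vert G v _ _ ih1 ih2 =>
    exact ⟨inferInstance, fun i hi => lstep1 _ G v i (ih1.2 i hi) fun j hj => ih2.2 j (by omega)⟩
  | @vdel b V _ G v _ _ ih1 ih2 =>
    refine ⟨inferInstance, fun i hi _ _ => ?_⟩
    have : Fintype V := Fintype.ofFinite V
    have e1 : LinearOrder V := IsWellOrder.linearOrder WellOrderingRel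
    have h5 := l2vdel V G v i (ih1.2 i hi _ _) (ih2.2 i hi _ _)
    exact ord _ _ _ _ _ _ _ _ i ⟨SimpleGraph.Iso.refl⟩ h5
  | del G s t hst _ _ ih1 ih2 =>
    exact ⟨inferInstance, fun i hi => lstep2 _ G s t i hst (ih1.2 i hi) fun j hj => ih2.2 j (by omega)⟩
  | split G s t hst hsq _ _ ih1 ih2 =>
    refine ⟨inferInstance, fun i hi _ _ => ?_⟩
    exact l2split _ G s t i hst hsq (ih1.2 i hi _ _) fun j hj => ih2.2 j (by omega) _ _
  | glue G A B hAB hno _ _ _ ih1 ih2 ih3 =>
    exact ⟨inferInstance, fun i hi => lglue G A B hAB hno i (ih1.2 i hi) (ih2.2 i hi) fun j hj =>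
      ih3.2 j (by omega)⟩
  | @join a b V U G H _ _ ih1 ih2 =>
    have := ih1.1
    have := ih2.1
    refine ⟨inferInstance, fun i hi => ljoin G H i fun p q hpq => ?_⟩
    rcases le_or_gt a p with h | h
    · exact Or.inl (ih1.2 p h)
    · exact Or.inr (ih2.2 q (by omega))
  | @iso b V U G H e _ ih =>
    have hV : Finite V := ih.1
    exact ⟨Finite.of_equiv V e.some.toEquiv, fun i hi => liso _ _ _ _ i e (ih.2 i hi)⟩

/-- vanishing in the degrees `≥ b` for the class `LQ b` -/
theorem above_LQ {b : ℕ} {V : Type} [Fintype V] [LinearOrder V] {G : SimpleGraph V} (h : LQ b G) (i : ℕ)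
    (hi : b ≤ i) : L2Van G i := (VB_of_LQ h).2 i hi _ _

/-- the Singer conjecture for homology spheres in the class -/
theorem singer_LQ {n : ℕ} {V : Type} [Fintype V] [LinearOrder V] {G : SimpleGraph V} (hS : HSph n G)
    (h : LQ (n / 2 + 1) G) (i : ℕ) (hi : 2 * i ≠ n) : L2Van G i :=
  singer_of_above hS (fun i hi => above_LQ h i (by omega)) i hi

end Pool.Agent.Run7.h606.DB
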