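import Pool.Agent.Run7.h606.DB.Red
import Pool.Agent.R580.CD.GAmp

/-!
# Gamma-vectors and centrally symmetric flag homology spheres
-/

set_option autoImplicit false
set_option linter.unusedSectionVars false

namespace Pool.Agent.Run7.h606.DB

open Finset Polynomial Pool.Agent.W907.SG Pool.Agent.R580.CD

variable {F : Type} [Field F]

theorem lnk_single {V : Type} [Fintype V] [LinearOrder V] (G : SimpleGraph V) (v : V) :
    lnk G {v} = G.neighborSet v := by
  ext x
  simp only [lnk, mem_singleton, Set.mem_ofPred_eq, forall_eq, SimpleGraph.mem_neighborSet]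
  exact G.adj_comm x v

/-- the gamma-vector of a double -/
theorem gam_dg {V : Type} [Fintype V] [LinearOrder V] {d : ℕ} {G : SimpleGraph V} (hS : Sph F (d + 1) G)
    (hpos : ∀ (W : Type) [Fintype W] [LinearOrder W] (H : SimpleGraph W), Sph F d H → ∀ i, 0 ≤ gam d H i)
    (v : V) (i : ℕ) : gam (d + 1) (DG G v) i ≤ 2 * gam (d + 1) G i := by
  classical
  have hL := (hS.link v).induce
  have hLp := hpos _ _ hL
  have hLs := gam_spec hL
  set δ := gam d (G.induce (G.neighborSet v)) with hδ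
  rw [fp_univ_induce] at hLs
  have hH : Sph F (d + 1) (DG G v) := sph_double hS v
  have hfp : fp (DG G v) Set.univ = 2 * fp G Set.univ - (1 + 2 * X) * fp G (G.neighborSet v) := by
    rw [fp_double, lnk_single]
  have hγ : IsGam (d + 1) (fp (DG G v) Set.univ) (fun i => 2 * gam (d + 1) G i + (-1) * δ i) := by
    refine ⟨?_, fun i hi => ?_⟩
    · rw [Phi_add, Phi_smul, Phi_smul, Phi_one d δ hLs.2, ← hLs.1, ← (gam_spec hS).1, hfp]
      rw [show (C 2 : ℤ[X]) = 2 by rfl, C_neg, C_1]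
      ring
    · beta_reduce
      rw [(gam_spec hS).2 i hi, hLs.2 i (by omega)]
      ring
  rw [gam_eq hH hγ]
  have := hLp i
  show 2 * gam (d + 1) G i + (-1) * δ i ≤ _
  linarith

/-- flag homology spheres with many vertices have a vertex with two vertices which are not adjacent to it -/
theorem large_tri {V : Type} [Fintype V] [LinearOrder V] {d : ℕ} {G : SimpleGraph V} (hS : Sph F d G)
    (h : 2 * d < Fintype.card V) : ∃ a b c, Tri G a b c := by
  classical
  by_contra hcon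
  obtain ⟨T, hT1, hT2⟩ := Finset.exists_max_image (Finset.univ.filter fun T : Finset V => G.IsClique (T : Set V))
    Finset.card ⟨∅, by simp⟩
  rw [Finset.mem_filter] at hT1
  have hmax : ∀ x, x ∉ T → ∃ t ∈ T, ¬ G.Adj x t := by
    intro x hx
    by_contra hcon
    push Not at hcon
    have h4 := hT2 (insert x T) (by
      rw [Finset.mem_filter]
      refine ⟨Finset.mem_univ _, ?_⟩
      rw [Finset.coe_insert, SimpleGraph.isClique_insert]
      exact ⟨hT1.2, fun b hb _ => hcon b hb⟩)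
    rw [Finset.card_insert_of_notMem hx] at h4
    omega
  have hTd : T.card ≤ d := hS.card hT1.2
  choose f hf1 hf2 using hmax
  have h1 : Tᶜ.card ≤ T.card := by
    refine Finset.card_le_card_of_injOn (fun x => if h : x ∉ T then f x h else x) ?_ ?_
    · intro x hx
      rw [Finset.mem_coe, mem_compl] at hx
      beta_reduce
      rw [dif_pos hx]
      exact hf1 x hx
    · intro x hx y hy hxy
      rw [Finset.mem_coe, mem_compl] at hx hy
      beta_reduce at hxy
      rw [dif_pos hx, dif_pos hy] at hxy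
      by_contra hne
      apply hcon
      refine ⟨f x hx, x, y, ?_, ?_, hne, fun h => hf2 x hx h.symm, fun h => hf2 y hy ?_⟩
      · intro e
        rw [e] at hx
        exact hx (e ▸ hf1 x (e ▸ hx))
      · intro e
        exact hy (by rw [e]; exact hf1 x hx)
      · rw [← hxy]
        exact h.symm
  rw [card_compl] at h1
  omega

/-- Gal's conjecture for flag homology `(d - 1)`-spheres over `F` -/
def Gal (F : Type) [Field F] (d : ℕ) : Prop :=
  ∀ (V : Type) [Fintype V] [LinearOrder V] (G : SimpleGraph V), Sph F d G → ∀ i, 0 ≤ gam d G i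

/-- a negative gamma number gives negative gamma numbers of centrally symmetric spheres with many vertices -/
theorem gal_csym {V : Type} [Fintype V] [LinearOrder V] {d i : ℕ} {G : SimpleGraph V}
    (hS : Sph F d G) (hpos : ∀ d' < d, Gal F d') (hneg : gam d G i < 0) : ∃ c : ℚ, 0 < c ∧ ∀ M : ℕ,
    ∃ (U : Type) (_ : Fintype U) (_ : LinearOrder U) (H : SimpleGraph U), Sph F d H ∧
      M ≤ Fintype.card U ∧ CSym H ∧ (gam d H i : ℚ) ≤ - c * Fintype.card U := by
  classical
  obtain ⟨c₀, hc₀, hbig⟩ := gal_amplify hS (fun d' hd' W _ _ H hH => hpos d' hd' W H hH) hneg 0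
  obtain ⟨V', i1, i2, G', h1, h2, h3⟩ := hbig (2 * d + 1)
  rw [mul_zero, add_zero] at h1 h3
  rw [add_zero, zero_add, pow_one] at h3
  obtain ⟨a, b, c, ht⟩ := large_tri h1 (by omega)
  have hV : 0 < Fintype.card V' := Fintype.card_pos_iff.2 ⟨a⟩
  have hV' : (0 : ℚ) < Fintype.card V' := by exact_mod_cast hV
  have hneg' : gam d G' i < 0 := by
    have h4 : (gam d G' i : ℚ) < 0 := by nlinarith
    exact_mod_cast h4
  have hd : d ≠ 0 := by
    rintro rfl
    by_cases hi : i = 0
    · rw [hi, gam_zero h1] at hneg'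
      omega
    · rw [(gam_spec h1).2 i (by omega)] at hneg'
      omega
  obtain ⟨e, rfl⟩ : ∃ e, d = e + 1 := ⟨d - 1, by omega⟩
  have hP : Clo1 (fun k U _ _ H => Sph F (e + 1) H ∧ gam (e + 1) H i ≤ - 2 ^ k) := by
    rintro k U _ _ H v ⟨h5, h6⟩
    refine ⟨sph_double h5 v, ?_⟩
    have h7 := gam_dg h5 (fun W _ _ H hH => hpos e (by omega) W H hH) v i
    rw [pow_succ]
    linarith
  refine ⟨1 / Fintype.card V', by positivity, fun M => ?_⟩
  obtain ⟨k, U, i3, i4, H, ⟨h5, h6⟩, h7, h8, h9⟩ := family hP (j := 0)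
    (show Sph F (e + 1) G' ∧ gam (e + 1) G' i ≤ - 2 ^ 0 from ⟨h1, by rw [pow_zero]; omega⟩) ht M
  refine ⟨U, i3, i4, H, h5, h8, h9, ?_⟩
  rw [zero_add] at h6
  have h10 : (gam (e + 1) H i : ℚ) ≤ - 2 ^ k := by exact_mod_cast h6
  have h11 : (Fintype.card U : ℚ) ≤ 2 ^ k * Fintype.card V' := by exact_mod_cast h7.le
  refine h10.trans ?_
  rw [neg_mul, neg_le_neg_iff, div_mul_eq_mul_div, one_mul, div_le_iff₀ hV']
  exact h11

/-! ### the top coefficient -/

theorem chi_gam {V : Type} [Fintype V] [LinearOrder V] {m : ℕ} {G : SimpleGraph V} (hS : Sph F (2 * m) G) :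
    chiW G = (-1 / 4) ^ m * (gam (2 * m) G m : ℚ) := by
  rw [chiW_eq, (gam_spec hS).1]
  unfold Phi
  rw [eval₂_finsetSum, Finset.sum_eq_single_of_mem m (by rw [mem_range]; omega)]
  · rw [eval₂_mul, eval₂_mul, eval₂_C, eval₂_pow, eval₂_pow, eval₂_add, eval₂_X, eval₂_pow, eval₂_X, Nat.sub_self,
      pow_zero, mul_one, mul_comm]
    norm_num
  · intro j hj hjm
    rw [mem_range] at hj
    have h1 : 2 * m - 2 * j ≠ 0 := by omega
    have h2 : (1 + 2 * X : ℤ[X]).eval₂ (Int.castRingHom ℚ) (-1 / 2) = 0 := by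
      rw [eval₂_add, eval₂_one, eval₂_mul, eval₂_X, show (2 : ℤ[X]) = C 2 from rfl, eval₂_C]
      norm_num
    rw [eval₂_mul, eval₂_pow (n := 2 * m - 2 * j), h2, zero_pow h1, mul_zero]

theorem top_dg {V : Type} [Fintype V] [LinearOrder V] {m : ℕ} {G : SimpleGraph V} (hS : Sph F (2 * m) G) (v : V) :
    gam (2 * m) (DG G v) m = 2 * gam (2 * m) G m := by
  have h1 := chi_gam (sph_double hS v)
  rw [chi_double, chi_gam hS] at h1
  have h2 : ((-1 / 4 : ℚ)) ^ m ≠ 0 := pow_ne_zero _ (by norm_num)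
  have h3 : (gam (2 * m) (DG G v) m : ℚ) = 2 * gam (2 * m) G m := by
    apply mul_left_cancel₀ h2
    rw [← h1]
    ring
  exact_mod_cast h3

theorem chi_le {V : Type} [Fintype V] [LinearOrder V] (G : SimpleGraph V) : |chiW G| ≤ 2 ^ Fintype.card V := by
  have h3 : ∑ _T : Finset V, (1 : ℚ) = 2 ^ Fintype.card V := by
    rw [Finset.sum_const, Finset.card_univ, Fintype.card_finset, nsmul_eq_mul, mul_one, Nat.cast_pow, Nat.cast_ofNat]
  rw [← h3]
  unfold chiW
  refine (Finset.abs_sum_le_sum_abs _ _).trans (Finset.sum_le_sum fun T _ => ?_)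
  split_ifs
  · rw [abs_pow]
    refine pow_le_one₀ (abs_nonneg _) ?_
    rw [abs_le]
    constructor <;> norm_num
  · rw [abs_zero]
    exact zero_le_one

/-- doubling at any vertices -/
theorem top_many {V : Type} [Fintype V] [LinearOrder V] {m : ℕ} (hm : 0 < m) {G : SimpleGraph V}
    (hS : Sph F (2 * m) G) (hneg : gam (2 * m) G m < 0) (k : ℕ) :
    ∃ (U : Type) (_ : Fintype U) (_ : LinearOrder U) (H : SimpleGraph U), Sph F (2 * m) H ∧
      gam (2 * m) H m ≤ - 2 ^ k := by
  induction k with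
  | zero => exact ⟨V, inferInstance, inferInstance, G, hS, by rw [pow_zero]; omega⟩
  | succ k ih =>
    obtain ⟨U, i1, i2, H, h1, h2⟩ := ih
    obtain ⟨v, _⟩ := h1.exists_mem (T := ∅) (by simp) (by simpa using hm)
    refine ⟨DV H v, inferInstance, inferInstance, DG H v, sph_double h1 v, ?_⟩
    rw [top_dg h1, pow_succ]
    linarith

/-- the same for the top coefficient, without hypotheses on the lower dimensions -/
theorem top_csym {V : Type} [Fintype V] [LinearOrder V] {m : ℕ} {G : SimpleGraph V}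
    (hS : Sph F (2 * m) G) (hneg : gam (2 * m) G m < 0) : ∃ c : ℚ, 0 < c ∧ ∀ M : ℕ,
    ∃ (U : Type) (_ : Fintype U) (_ : LinearOrder U) (H : SimpleGraph U), Sph F (2 * m) H ∧
      M ≤ Fintype.card U ∧ CSym H ∧ (gam (2 * m) H m : ℚ) ≤ - c * Fintype.card U := by
  classical
  rcases Nat.eq_zero_or_pos m with rfl | hm
  · rw [mul_zero] at hS hneg
    rw [gam_zero hS] at hneg
    omega
  obtain ⟨V', i1, i2, G', h1, h2⟩ := top_many hm hS hneg (6 * m + 1)
  have hcard : 2 * (2 * m) < Fintype.card V' := by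
    by_contra hcon
    have h3 := chi_le G'
    rw [chi_gam h1, abs_mul, abs_pow] at h3
    have h4 : (2 : ℚ) ^ (6 * m + 1) ≤ |(gam (2 * m) G' m : ℚ)| := by
      rw [le_abs]
      right
      have h5 : (gam (2 * m) G' m : ℚ) ≤ - 2 ^ (6 * m + 1) := by exact_mod_cast h2
      linarith
    have h5 : |(-1 / 4 : ℚ)| = 1 / 4 := by norm_num [abs_div]
    rw [h5] at h3
    have h6 : (2 : ℚ) ^ Fintype.card V' ≤ 2 ^ (4 * m) := pow_le_pow_right₀ (by norm_num) (by omega)
    have h7 : (1 / 4 : ℚ) ^ m * 2 ^ (6 * m + 1) = 2 * 2 ^ (4 * m) := by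
      have h8 : (2 : ℚ) ^ (6 * m + 1) = 2 * 4 ^ m * 2 ^ (4 * m) := by
        rw [show (4 : ℚ) = 2 ^ 2 by norm_num, ← pow_mul, ← pow_succ', ← pow_add]
        congr 1
        omega
      rw [h8, one_div, inv_pow]
      field_simp
    have h9 : (1 / 4 : ℚ) ^ m * 2 ^ (6 * m + 1) ≤ (1 / 4 : ℚ) ^ m * |(gam (2 * m) G' m : ℚ)| :=
      mul_le_mul_of_nonneg_left h4 (by positivity)
    have h10 : (0 : ℚ) < 2 ^ (4 * m) := by positivity
    linarith
  obtain ⟨a, b, c, ht⟩ := large_tri h1 hcard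
  have hV : 0 < Fintype.card V' := Fintype.card_pos_iff.2 ⟨a⟩
  have hV' : (0 : ℚ) < Fintype.card V' := by exact_mod_cast hV
  have hP : Clo1 (fun k U _ _ H => Sph F (2 * m) H ∧ gam (2 * m) H m ≤ - 2 ^ k) := by
    rintro k U _ _ H v ⟨h5, h6⟩
    refine ⟨sph_double h5 v, ?_⟩
    rw [top_dg h5, pow_succ]
    linarith
  have h0 : gam (2 * m) G' m ≤ - 2 ^ 0 := by
    refine h2.trans ?_
    rw [neg_le_neg_iff]
    exact pow_le_pow_right₀ (by norm_num) (Nat.zero_le _)
  refine ⟨1 / Fintype.card V', by positivity, fun M => ?_⟩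
  obtain ⟨k, U, i3, i4, H, ⟨h5, h6⟩, h7, h8, h9⟩ := family hP (j := 0)
    (show Sph F (2 * m) G' ∧ gam (2 * m) G' m ≤ - 2 ^ 0 from ⟨h1, h0⟩) ht M
  refine ⟨U, i3, i4, H, h5, h8, h9, ?_⟩
  rw [zero_add] at h6
  have h10 : (gam (2 * m) H m : ℚ) ≤ - 2 ^ k := by exact_mod_cast h6
  have h11 : (Fintype.card U : ℚ) ≤ 2 ^ k * Fintype.card V' := by exact_mod_cast h7.le
  refine h10.trans ?_
  rw [neg_mul, neg_le_neg_iff, div_mul_eq_mul_div, one_mul, div_le_iff₀ hV']
  exact h11

end Pool.Agent.Run7.h606.DB
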