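import Pool.Agent.Run7.h606.DB.Shap
import Pool.Agent.W338.SG.ADD

/-!
# Unfolding along a vertex

If for all finite sets of nontrivial elements of the group of the double of `G` at `v` there is a free finite set with
`i`-th Betti number at most `c` times the number of its elements, then the same is true for `G`, with `c / 2`.
-/

set_option autoImplicit false
set_option linter.unusedSectionVars false

namespace Pool.Agent.Run7.h606.DB

open Pool.Agent.W907.SG Pool.Agent.R580.CD Pool.Agent.W461.SGN Pool.Agent.W338.SG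

/-- the vertices of the double of `G` at `v` -/
abbrev DV {V : Type} [Fintype V] [LinearOrder V] (G : SimpleGraph V) (v : V) : Type := ↥(hA v ∪ hB G v)

/-- the double of `G` at `v` -/
noncomputable abbrev DG {V : Type} [Fintype V] [LinearOrder V] (G : SimpleGraph V) (v : V) : SimpleGraph (DV G v) :=
  (dbl G v).induce (hA v ∪ hB G v)

open Classical in
noncomputable instance {V : Type} [Fintype V] [LinearOrder V] (G : SimpleGraph V) (v : V) : Fintype (DV G v) :=
  Subtype.fintype _

/-- sets with a right action of `W G` -/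
structure Act {V : Type} (G : SimpleGraph V) (X : Type) where
  a : V → X → X
  ev : X → W G → X
  inv : ∀ v x, a v (a v x) = x
  comm : ∀ u v, G.Adj u v → ∀ x, a u (a v x) = a v (a u x)
  one : ∀ x, ev x 1 = x
  mul : ∀ x g h, ev x (g * h) = ev (ev x g) h
  simple : ∀ x v, ev x ((cox G).simple v) = a v x

/-- the homomorphism to the permutations -/
noncomputable def toPerm {V X : Type} (G : SimpleGraph V) (a : V → X → X) (inv : ∀ v x, a v (a v x) = x)
    (comm : ∀ u v, G.Adj u v → ∀ x, a u (a v x) = a v (a u x)) : W G →* Equiv.Perm X :=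
  (cox G).toCoxeterSystem.lift ⟨fun v => ⟨a v, a v, inv v, inv v⟩, liftable G _
    (fun v => Equiv.ext fun x => inv v x) (fun u v h => Equiv.ext fun x => comm u v h x)⟩

theorem toPerm_simple {V X : Type} (G : SimpleGraph V) (a : V → X → X) (inv : ∀ v x, a v (a v x) = x)
    (comm : ∀ u v, G.Adj u v → ∀ x, a u (a v x) = a v (a u x)) (v : V) (x : X) :
    toPerm G a inv comm ((cox G).simple v) x = a v x := by
  have h : toPerm G a inv comm ((cox G).simple v) = ⟨a v, a v, inv v, inv v⟩ :=
    CoxeterSystem.lift_apply_simple _ _ v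
  rw [h]
  rfl

theorem simple_inv {V : Type} (G : SimpleGraph V) (v : V) : ((cox G).simple v)⁻¹ = (cox G).simple v :=
  inv_eq_of_mul_eq_one_right (simple_mul_self G v)

/-- the action given by commuting involutions -/
noncomputable def mkAct {V X : Type} (G : SimpleGraph V) (a : V → X → X) (inv : ∀ v x, a v (a v x) = x)
    (comm : ∀ u v, G.Adj u v → ∀ x, a u (a v x) = a v (a u x)) : Act G X where
  a := a
  ev x g := toPerm G a inv comm g⁻¹ x
  inv := inv
  comm := comm
  one x := by rw [inv_one, map_one]; rfl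
  mul x g h := by rw [mul_inv_rev, map_mul]; rfl
  simple x v := by rw [simple_inv]; exact toPerm_simple G a inv comm v x

/-- For all finite sets of nontrivial elements of `W G` there is a free finite set with `i`-th Betti number at most
`c` times the number of its elements. -/
def Bd {V : Type} [Fintype V] [LinearOrder V] (G : SimpleGraph V) (i : ℕ) (c : ℝ) : Prop :=
  ∀ E : Finset (W G), (1 : W G) ∉ E → ∃ (X : Type) (_ : Fintype X) (_ : Nonempty X) (A : Act G X),
    (∀ g ∈ E, ∀ x, A.ev x g ≠ x) ∧ (beta G (pull ℝ A.a) Set.univ ∅ i : ℝ) ≤ c * Fintype.card X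

theorem Bd.mono {V : Type} [Fintype V] [LinearOrder V] {G : SimpleGraph V} {i : ℕ} {c c' : ℝ} (h : Bd G i c)
    (hc : c ≤ c') : Bd G i c' := by
  intro E hE
  obtain ⟨X, i1, i2, A, h1, h2⟩ := h E hE
  exact ⟨X, i1, i2, A, h1, h2.trans (mul_le_mul_of_nonneg_right hc (Nat.cast_nonneg _))⟩

theorem l2_of_bd {V : Type} [Fintype V] [LinearOrder V] {G : SimpleGraph V} {i : ℕ}
    (h : ∀ c : ℝ, 0 < c → Bd G i c) : L2Van G i := by
  refine large V G i fun N E hE => ?_
  obtain ⟨X, i1, i2, A, h1, h2⟩ := h (1 / (N + 1)) (by positivity) E hE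
  refine ⟨X, i1, i2, A.a, A.ev, A.inv, A.comm, A.one, A.mul, A.simple, h1, ?_⟩
  have hN : (0 : ℝ) < N + 1 := by positivity
  have h3 : ((N : ℝ) + 1) * beta G (pull ℝ A.a) Set.univ ∅ i ≤ Fintype.card X := by
    have := mul_le_mul_of_nonneg_left h2 hN.le
    rw [← mul_assoc, mul_one_div_cancel hN.ne', one_mul] at this
    exact this
  have h4 : (N : ℝ) * beta G (pull ℝ A.a) Set.univ ∅ i ≤ Fintype.card X := by
    refine le_trans ?_ h3
    exact mul_le_mul_of_nonneg_right (by linarith) (Nat.cast_nonneg _)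
  exact_mod_cast h4

theorem bd_of_l2 {V : Type} [Fintype V] [LinearOrder V] {G : SimpleGraph V} {i : ℕ} (h : L2Van G i) {c : ℝ}
    (hc : 0 < c) : Bd G i c := by
  classical
  intro E hE
  obtain ⟨N, hN⟩ := exists_nat_gt (1 / c)
  obtain ⟨E1, hE1, hX1⟩ := small V G i h N
  have : Fact (Nat.Prime 3) := ⟨Nat.prime_three⟩
  obtain ⟨Y, i1, i2, P, ev, e1, e2, e3, e4⟩ := nilp 3 V G (E ∪ E1) (by decide) (by
    rw [Finset.mem_union]; exact fun h => h.elim hE hE1)
  refine ⟨Y, i1, i2, ⟨P.a, ev, P.inv, P.comm, e1, e2, e3⟩, fun g hg => e4 g (Finset.mem_union_left _ hg), ?_⟩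
  have h1 := hX1 Y P.a ev P.inv P.comm e1 e2 e3 (fun g hg => e4 g (Finset.mem_union_right _ hg))
  have h2 : (N : ℝ) * beta G (pull ℝ P.a) Set.univ ∅ i ≤ Fintype.card Y := by exact_mod_cast h1
  have h0 : (0 : ℝ) ≤ beta G (pull ℝ P.a) Set.univ ∅ i := Nat.cast_nonneg _
  have h3 : 1 < c * N := by
    rw [div_lt_iff₀ hc] at hN
    linarith
  show (beta G (pull ℝ P.a) Set.univ ∅ i : ℝ) ≤ c * Fintype.card Y
  nlinarith

section Unfold

variable {V : Type} [Fintype V] [LinearOrder V] (G : SimpleGraph V) (v : V)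

theorem mem0 {u : V} (h : u ≠ v) : (ic0 u : V ×ₗ Bool) ∈ hA v ∪ hB G v := Or.inl ⟨u, h, rfl⟩

theorem mem1 {u : V} (h : u ≠ v) : (ic1 G v u : V ×ₗ Bool) ∈ hA v ∪ hB G v := Or.inr ⟨u, h, rfl⟩

theorem dv_cases (p : DV G v) : (∃ u, ∃ h : u ≠ v, p = ⟨ic0 u, mem0 G v h⟩) ∨
    ∃ u, ∃ h : u ≠ v, p = ⟨ic1 G v u, mem1 G v h⟩ := by
  obtain ⟨p, ⟨u, hu, rfl⟩ | ⟨u, hu, rfl⟩⟩ := p
  · exact Or.inl ⟨u, hu, rfl⟩
  · exact Or.inr ⟨u, hu, rfl⟩

/-- the images of the generators -/
noncomputable def jg (p : V ×ₗ Bool) : W G :=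
  if (ofLex p).2 then (cox G).simple v * (cox G).simple (ofLex p).1 * (cox G).simple v
  else (cox G).simple (ofLex p).1

theorem jg0 (u : V) : jg G v (ic0 u) = (cox G).simple u := rfl

theorem jg1 (u : V) : jg G v (ic1 G v u) = (cox G).simple v * (cox G).simple u * (cox G).simple v := by
  classical
  by_cases h : G.Adj v u
  · rw [ic_eq G v h, jg0, simple_comm G v u h, mul_assoc, simple_mul_self, mul_one]
  · have h1 : (ofLex (ic1 G v u)).2 = true := by
      show (if G.Adj v u then false else true) = true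
      rw [if_neg h]
    unfold jg
    rw [if_pos h1]
    rfl

theorem conj_mul (x y s : W G) (hs : s * s = 1) : (s * x * s) * (s * y * s) = s * (x * y) * s := by
  calc (s * x * s) * (s * y * s) = s * x * (s * s) * y * s := by simp only [mul_assoc]
    _ = s * (x * y) * s := by rw [hs]; simp only [mul_assoc, mul_one]

/-- the inclusion of the subgroup of index two -/
noncomputable def jh : W (DG G v) →* W G :=
  (cox (DG G v)).toCoxeterSystem.lift ⟨fun p => jg G v p, liftable (DG G v) _ (fun p => by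
      rcases dv_cases G v p with ⟨u, hu, rfl⟩ | ⟨u, hu, rfl⟩
      · show jg G v (ic0 u) * jg G v (ic0 u) = 1
        rw [jg0, simple_mul_self]
      · show jg G v (ic1 G v u) * jg G v (ic1 G v u) = 1
        rw [jg1, conj_mul G _ _ _ (simple_mul_self G v), simple_mul_self, mul_one, simple_mul_self]) (fun p q hpq => by
      obtain ⟨h1, ⟨⟨x, hx, hx2⟩, ⟨y, hy, hy2⟩⟩ | ⟨⟨x, hx, hx2⟩, ⟨y, hy, hy2⟩⟩⟩ := hpq
      · have h1 : G.Adj (ofLex (p : V ×ₗ Bool)).1 (ofLex (q : V ×ₗ Bool)).1 := h1
        show jg G v (p : V ×ₗ Bool) * jg G v (q : V ×ₗ Bool) = jg G v (q : V ×ₗ Bool) * jg G v (p : V ×ₗ Bool)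
        have hx2 : ic0 x = (p : V ×ₗ Bool) := hx2
        have hy2 : ic0 y = (q : V ×ₗ Bool) := hy2
        rw [← hx2, ← hy2] at h1 ⊢
        rw [jg0, jg0]
        exact simple_comm G x y h1
      · have h1 : G.Adj (ofLex (p : V ×ₗ Bool)).1 (ofLex (q : V ×ₗ Bool)).1 := h1
        show jg G v (p : V ×ₗ Bool) * jg G v (q : V ×ₗ Bool) = jg G v (q : V ×ₗ Bool) * jg G v (p : V ×ₗ Bool)
        have hx2 : ic1 G v x = (p : V ×ₗ Bool) := hx2
        have hy2 : ic1 G v y = (q : V ×ₗ Bool) := hy2
        rw [← hx2, ← hy2] at h1 ⊢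
        rw [jg1, jg1, conj_mul G _ _ _ (simple_mul_self G v), conj_mul G _ _ _ (simple_mul_self G v)]
        rw [simple_comm G x y h1])⟩

theorem jh_simple (p : DV G v) : jh G v ((cox (DG G v)).simple p) = jg G v p :=
  CoxeterSystem.lift_apply_simple _ _ p

theorem conj_range (h : W (DG G v)) : ∃ h', jh G v h' = (cox G).simple v * jh G v h * (cox G).simple v := by
  refine (cox (DG G v)).toCoxeterSystem.simple_induction (p := fun h => ∃ h', jh G v h' =
    (cox G).simple v * jh G v h * (cox G).simple v) h (fun p => ?_) ?_ ?_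
  · have e : (cox (DG G v)).toCoxeterSystem.simple p = (cox (DG G v)).simple p := rfl
    rw [e, jh_simple]
    rcases dv_cases G v p with ⟨u, hu, rfl⟩ | ⟨u, hu, rfl⟩
    · refine ⟨(cox (DG G v)).simple ⟨ic1 G v u, mem1 G v hu⟩, ?_⟩
      rw [jh_simple]
      show jg G v (ic1 G v u) = _ * jg G v (ic0 u) * _
      rw [jg1, jg0]
    · refine ⟨(cox (DG G v)).simple ⟨ic0 u, mem0 G v hu⟩, ?_⟩
      rw [jh_simple]
      show jg G v (ic0 u) = _ * jg G v (ic1 G v u) * _
      rw [jg1, jg0]
      have h1 := simple_mul_self G v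
      calc (cox G).simple u = ((cox G).simple v * (cox G).simple v) * (cox G).simple u *
            ((cox G).simple v * (cox G).simple v) := by rw [h1, one_mul, mul_one]
        _ = _ := by simp only [mul_assoc]
  · exact ⟨1, by rw [map_one, mul_one, simple_mul_self]⟩
  · rintro w w' ⟨h1, e1⟩ ⟨h2, e2⟩
    exact ⟨h1 * h2, by rw [map_mul, e1, e2, conj_mul G _ _ _ (simple_mul_self G v), map_mul]⟩

theorem even_odd (g : W G) : (∃ h, jh G v h = g) ∨ ∃ h, jh G v h * (cox G).simple v = g := by
  refine (cox G).toCoxeterSystem.simple_induction (p := fun g => (∃ h, jh G v h = g) ∨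
    ∃ h, jh G v h * (cox G).simple v = g) g (fun u => ?_) ?_ ?_
  · have e : (cox G).toCoxeterSystem.simple u = (cox G).simple u := rfl
    rw [e]
    by_cases hu : u = v
    · exact Or.inr ⟨1, by rw [map_one, one_mul, hu]⟩
    · exact Or.inl ⟨(cox (DG G v)).simple ⟨ic0 u, mem0 G v hu⟩, by rw [jh_simple]; rfl⟩
  · exact Or.inl ⟨1, map_one _⟩
  · have hv := simple_mul_self G v
    rintro w w' (⟨h1, e1⟩ | ⟨h1, e1⟩) (⟨h2, e2⟩ | ⟨h2, e2⟩)
    · exact Or.inl ⟨h1 * h2, by rw [map_mul, e1, e2]⟩
    · exact Or.inr ⟨h1 * h2, by rw [map_mul, e1, ← e2, mul_assoc]⟩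
    · obtain ⟨h3, e3⟩ := conj_range G v h2
      refine Or.inr ⟨h1 * h3, ?_⟩
      rw [map_mul, e3, ← e1, ← e2]
      calc jh G v h1 * ((cox G).simple v * jh G v h2 * (cox G).simple v) * (cox G).simple v
          = jh G v h1 * (cox G).simple v * jh G v h2 * ((cox G).simple v * (cox G).simple v) := by
            simp only [mul_assoc]
        _ = _ := by rw [hv, mul_one]
    · obtain ⟨h3, e3⟩ := conj_range G v h2
      refine Or.inl ⟨h1 * h3, ?_⟩
      rw [map_mul, e3, ← e1, ← e2]
      simp only [mul_assoc]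

variable {X : Type}

open Classical in
/-- the extended action -/
noncomputable def aext (a : DV G v → X → X) (p : V ×ₗ Bool) (x : X) : X :=
  if h : p ∈ hA v ∪ hB G v then a ⟨p, h⟩ x else x

variable {G v}

theorem aext_mem (a : DV G v → X → X) (p : DV G v) : aext G v a (p : V ×ₗ Bool) = a p := by
  funext x
  exact dif_pos p.2

theorem aext_inv {a : DV G v → X → X} (inv : ∀ p x, a p (a p x) = x) (p : V ×ₗ Bool) (x : X) :
    aext G v a p (aext G v a p x) = x := by
  classical
  by_cases h : p ∈ hA v ∪ hB G v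
  · have h1 := aext_mem a ⟨p, h⟩
    dsimp only at h1
    rw [h1, inv]
  · unfold aext
    rw [dif_neg h, dif_neg h]

theorem ind_inv {a : DV G v → X → X} (inv : ∀ p x, a p (a p x) = x) (u : V) (x : X × Bool) :
    ind G v (aext G v a) u (ind G v (aext G v a) u x) = x := by
  by_cases hu : u = v
  · rw [hu, ind_v, ind_v, Bool.not_not]
  · rw [ind_ne G _ hu, ind_ne G _ hu]
    dsimp only
    rw [aext_inv inv]

theorem ind_comm {a : DV G v → X → X} (comm : ∀ p q, (DG G v).Adj p q → ∀ x, a p (a q x) = a q (a p x)) (u w : V)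
    (huw : G.Adj u w) (x : X × Bool) : ind G v (aext G v a) u (ind G v (aext G v a) w x) =
      ind G v (aext G v a) w (ind G v (aext G v a) u x) := by
  obtain ⟨x, b⟩ := x
  by_cases hu : u = v
  · have hw : w ≠ v := by
      rintro rfl
      exact G.loopless.irrefl _ (hu ▸ huw)
    rw [hu] at huw ⊢
    rw [ind_v, ind_v, ind_ne G _ hw, ind_ne G _ hw, ic_eq G v huw]
    cases b <;> rfl
  · by_cases hw : w = v
    · rw [hw] at huw ⊢
      rw [ind_v, ind_v, ind_ne G _ hu, ind_ne G _ hu, ic_eq G v huw.symm]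
      cases b <;> rfl
    · rw [ind_ne G _ hu, ind_ne G _ hu, ind_ne G _ hw, ind_ne G _ hw]
      dsimp only
      have h0 : aext G v a (ic0 u) (aext G v a (ic0 w) x) = aext G v a (ic0 w) (aext G v a (ic0 u) x) := by
        have e1 := aext_mem a ⟨ic0 u, mem0 G v hu⟩
        have e2 := aext_mem a ⟨ic0 w, mem0 G v hw⟩
        dsimp only at e1 e2
        rw [e1, e2]
        exact comm ⟨ic0 u, mem0 G v hu⟩ ⟨ic0 w, mem0 G v hw⟩ ((dbl_adj0 G v u hu w hw).1 huw) x
      have h1 : aext G v a (ic1 G v u) (aext G v a (ic1 G v w) x) =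
          aext G v a (ic1 G v w) (aext G v a (ic1 G v u) x) := by
        have e1 := aext_mem a ⟨ic1 G v u, mem1 G v hu⟩
        have e2 := aext_mem a ⟨ic1 G v w, mem1 G v hw⟩
        dsimp only at e1 e2
        rw [e1, e2]
        exact comm ⟨ic1 G v u, mem1 G v hu⟩ ⟨ic1 G v w, mem1 G v hw⟩ ((dbl_adj1 G v u hu w hw).1 huw) x
      cases b
      · exact Prod.ext h0 rfl
      · exact Prod.ext h1 rfl

/-- the induced action -/
noncomputable def IA (A : Act (DG G v) X) : Act G (X × Bool) :=
  mkAct G (ind G v (aext G v A.a)) (ind_inv A.inv) (ind_comm A.comm)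

theorem IA_a (A : Act (DG G v) X) : (IA A).a = ind G v (aext G v A.a) := rfl

theorem IA_v (A : Act (DG G v) X) (x : X) (b : Bool) : (IA A).ev (x, b) ((cox G).simple v) = (x, !b) := by
  rw [(IA A).simple, IA_a, ind_v]

theorem IA_false (A : Act (DG G v) X) (h : W (DG G v)) : ∀ x, (IA A).ev (x, false) (jh G v h) =
    (A.ev x h, false) := by
  refine (cox (DG G v)).toCoxeterSystem.simple_induction (p := fun h => ∀ x, (IA A).ev (x, false) (jh G v h) =
    (A.ev x h, false)) h (fun p x => ?_) (fun x => ?_) (fun w w' h1 h2 x => ?_)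
  · have e : (cox (DG G v)).toCoxeterSystem.simple p = (cox (DG G v)).simple p := rfl
    rw [e, jh_simple, A.simple]
    rcases dv_cases G v p with ⟨u, hu, rfl⟩ | ⟨u, hu, rfl⟩
    · show (IA A).ev (x, false) (jg G v (ic0 u)) = _
      rw [jg0, (IA A).simple, IA_a, ind_ne G _ hu]
      have e1 := aext_mem A.a ⟨ic0 u, mem0 G v hu⟩
      dsimp only at e1
      refine Prod.ext ?_ rfl
      exact congrFun e1 x
    · show (IA A).ev (x, false) (jg G v (ic1 G v u)) = _
      have e1 := aext_mem A.a ⟨ic1 G v u, mem1 G v hu⟩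
      dsimp only at e1
      have e2 : (IA A).ev (x, true) ((cox G).simple u) = (A.a ⟨ic1 G v u, mem1 G v hu⟩ x, true) := by
        rw [(IA A).simple, IA_a, ind_ne G _ hu]
        refine Prod.ext ?_ rfl
        exact congrFun e1 x
      rw [jg1, (IA A).mul, (IA A).mul, IA_v A x false, Bool.not_false, e2, IA_v]
      rfl
  · rw [map_one, (IA A).one, A.one]
  · rw [map_mul, (IA A).mul, h1, h2, A.mul]

theorem IA_true (A : Act (DG G v) X) {h h' : W (DG G v)}
    (hh : jh G v h' = (cox G).simple v * jh G v h * (cox G).simple v) (x : X) :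
    (IA A).ev (x, true) (jh G v h) = (A.ev x h', true) := by
  have h1 : (IA A).ev (x, true) (jh G v h) = (IA A).ev (x, false) (jh G v h' * (cox G).simple v) := by
    have e : jh G v h' * (cox G).simple v = (cox G).simple v * jh G v h := by
      rw [hh, mul_assoc, simple_mul_self, mul_one]
    rw [e, (IA A).mul, IA_v]
    rfl
  rw [h1, (IA A).mul, IA_false, IA_v]
  rfl

/-- **Unfolding.** -/
theorem Bd.unfold {i : ℕ} {c : ℝ} (h : Bd (DG G v) i c) : Bd G i (c / 2) := by
  classical
  intro E hE
  set s := (cox G).simple v with hs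
  have hss : s * s = 1 := simple_mul_self G v
  set f : W G → W (DG G v) := fun g => if h : ∃ h, jh G v h = g then h.choose else 1 with hf
  have hf1 : ∀ g, (∃ h, jh G v h = g) → jh G v (f g) = g := by
    intro g hg
    rw [hf]
    beta_reduce
    rw [dif_pos hg]
    exact hg.choose_spec
  set E' : Finset (W (DG G v)) := ((E ∪ E.image fun g => s * g * s).image f).filter fun h => h ≠ 1 with hE'
  obtain ⟨X, i1, i2, A, h1, h2⟩ := h E' (by rw [hE', Finset.mem_filter]; exact fun h => h.2 rfl)
  refine ⟨X × Bool, inferInstance, inferInstance, IA A, ?_, ?_⟩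
  · rintro g hg ⟨x, b⟩
    have hg1 : g ≠ 1 := fun h => hE (h ▸ hg)
    rcases even_odd G v g with ⟨k, hk⟩ | ⟨k, hk⟩
    · cases b
      · have hk2 := hf1 g ⟨k, hk⟩
        have hk3 : f g ≠ 1 := by
          intro h3
          rw [h3, map_one] at hk2
          exact hg1 hk2.symm
        have hk4 : f g ∈ E' := by
          rw [hE', Finset.mem_filter]
          exact ⟨Finset.mem_image_of_mem _ (Finset.mem_union_left _ hg), hk3⟩
        rw [← hk2, IA_false]
        intro h3
        exact h1 _ hk4 x (congrArg Prod.fst h3)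
      · obtain ⟨k', hk'⟩ := conj_range G v k
        rw [hk] at hk'
        have hk2 := hf1 _ ⟨k', hk'⟩
        have hk3 : f (s * g * s) ≠ 1 := by
          intro h3
          rw [h3, map_one] at hk2
          apply hg1
          calc g = (s * s) * g * (s * s) := by rw [hss, one_mul, mul_one]
            _ = s * (s * g * s) * s := by simp only [mul_assoc]
            _ = 1 := by rw [← hk2, mul_one, hss]
        have hk4 : f (s * g * s) ∈ E' := by
          rw [hE', Finset.mem_filter]
          exact ⟨Finset.mem_image_of_mem _ (Finset.mem_union_right _ (Finset.mem_image_of_mem _ hg)), hk3⟩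
        rw [← hk, IA_true A (h' := f (s * g * s)) (by rw [hk2, hk])]
        intro h3
        exact h1 _ hk4 x (congrArg Prod.fst h3)
    · rw [← hk, (IA A).mul]
      cases b
      · rw [IA_false, IA_v]
        intro h3
        exact Bool.noConfusion (congrArg Prod.snd h3)
      · obtain ⟨k', hk'⟩ := conj_range G v k
        rw [IA_true A hk', IA_v]
        intro h3
        exact Bool.noConfusion (congrArg Prod.snd h3)
  · have hb := beta_ind_le (F := ℝ) G v (aext G v A.a) i
    have ht := tr (DV G v) (V ×ₗ Bool) ℝ (X → ℝ) (dbl G v) (DG G v) (pull ℝ (aext G v A.a))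
      (fun p => (p : V ×ₗ Bool)) (Subtype.strictMono_coe _) (fun u u' => Iff.rfl) i
    rw [Subtype.range_coe] at ht
    rw [ht] at hb
    have e : (fun p : DV G v => pull ℝ (aext G v A.a) (p : V ×ₗ Bool)) = pull ℝ A.a := by
      funext p
      unfold pull
      rw [aext_mem]
    rw [e] at hb
    rw [Fintype.card_prod, Fintype.card_bool, IA_a]
    push_cast
    have hb2 : (beta G (pull ℝ (ind G v (aext G v A.a))) Set.univ ∅ i : ℝ) ≤ beta (DG G v) (pull ℝ A.a) Set.univ ∅ i := by
      exact_mod_cast hb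
    linarith

/-- the action by right multiplication -/
noncomputable def regAct {U : Type} (H : SimpleGraph U) : Act H (W H) where
  a u x := x * (cox H).simple u
  ev x g := x * g
  inv u x := by rw [mul_assoc, simple_mul_self, mul_one]
  comm u w h x := by rw [mul_assoc, mul_assoc, simple_comm H u w h]
  one x := mul_one x
  mul x g h := (mul_assoc x g h).symm
  simple x v := rfl

/-- the group of the double is a subgroup -/
theorem jh_ne {h : W (DG G v)} (hh : h ≠ 1) : jh G v h ≠ 1 := by
  intro h1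
  have h2 := IA_false (regAct (DG G v)) h 1
  rw [h1, (IA _).one] at h2
  have h3 : (1 : W (DG G v)) = 1 * h := congrArg Prod.fst h2
  rw [one_mul] at h3
  exact hh h3.symm

/-- the restriction of an action to the subgroup of index two -/
noncomputable def RA (A : Act G X) : Act (DG G v) X where
  a p x := A.ev x (jg G v p)
  ev x h := A.ev x (jh G v h)
  inv p x := by rw [← A.mul, ← jh_simple, ← map_mul, simple_mul_self, map_one, A.one]
  comm p q h x := by
    rw [← A.mul, ← A.mul, ← jh_simple, ← jh_simple, ← map_mul, ← map_mul, simple_comm (DG G v) p q h]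
  one x := by rw [map_one, A.one]
  mul x g h := by rw [map_mul, A.mul]
  simple x p := by rw [jh_simple]

/-- **Folding.** -/
theorem l2_fold {i : ℕ} (h : L2Van G i) : L2Van (DG G v) i := by
  classical
  refine large _ _ i fun N E' hE' => ?_
  obtain ⟨E, hE, hX⟩ := small V G i h (2 * N)
  have : Fact (Nat.Prime 3) := ⟨Nat.prime_three⟩
  obtain ⟨Y, i1, i2, P, ev, e1, e2, e3, e4⟩ := nilp 3 V G (E ∪ E'.image (jh G v)) (by decide) (by
    rw [Finset.mem_union, Finset.mem_image]
    rintro (h | ⟨g, hg, hg1⟩)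
    · exact hE h
    · exact jh_ne (fun e => hE' (e ▸ hg)) hg1)
  set A : Act G Y := ⟨P.a, ev, P.inv, P.comm, e1, e2, e3⟩ with hA
  set R : Act (DG G v) Y := RA A with hR
  refine ⟨Y, i1, i2, R.a, R.ev, R.inv, R.comm, R.one, R.mul, R.simple, ?_, ?_⟩
  · intro g hg x
    exact e4 _ (Finset.mem_union_right _ (Finset.mem_image_of_mem _ hg)) x
  · have h1 := hX (Y × Bool) (IA R).a (IA R).ev (IA R).inv (IA R).comm (IA R).one (IA R).mul (IA R).simple ?_
    · have hb := beta_ind_ge (F := ℝ) G v (aext G v R.a) i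
      have ht := tr (DV G v) (V ×ₗ Bool) ℝ (Y → ℝ) (dbl G v) (DG G v) (pull ℝ (aext G v R.a))
        (fun p => (p : V ×ₗ Bool)) (Subtype.strictMono_coe _) (fun u u' => Iff.rfl) i
      rw [Subtype.range_coe] at ht
      rw [ht] at hb
      have e : (fun p : DV G v => pull ℝ (aext G v R.a) (p : V ×ₗ Bool)) = pull ℝ R.a := by
        funext p
        unfold pull
        rw [aext_mem]
      rw [e] at hb
      rw [IA_a, Fintype.card_prod, Fintype.card_bool] at h1
      have h2 : 2 * N * beta (DG G v) (pull ℝ R.a) Set.univ ∅ i ≤ Fintype.card Y * 2 :=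
        (Nat.mul_le_mul_left _ hb).trans h1
      have h3 : 2 * N * beta (DG G v) (pull ℝ R.a) Set.univ ∅ i =
        2 * (N * beta (DG G v) (pull ℝ R.a) Set.univ ∅ i) := by ring
      omega
    · rintro g hg ⟨x, b⟩
      have key : ∀ y, A.ev y g ≠ y := fun y => e4 g (Finset.mem_union_left _ hg) y
      have hss := simple_mul_self G v
      rcases even_odd G v g with ⟨k, hk⟩ | ⟨k, hk⟩
      · cases b
        · rw [← hk, IA_false]
          intro h3
          have h4 : A.ev x (jh G v k) = x := congrArg Prod.fst h3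
          rw [hk] at h4
          exact key x h4
        · obtain ⟨k', hk'⟩ := conj_range G v k
          rw [← hk, IA_true R hk']
          intro h3
          have h4 : A.ev x (jh G v k') = x := congrArg Prod.fst h3
          rw [hk', hk, A.mul, A.mul] at h4
          apply key (A.ev x ((cox G).simple v))
          have h5 := congrArg (fun y => A.ev y ((cox G).simple v)) h4
          beta_reduce at h5
          rw [← A.mul, hss, A.one] at h5
          exact h5
      · rw [← hk, (IA R).mul]
        cases b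
        · rw [IA_false, IA_v]
          intro h3
          exact Bool.noConfusion (congrArg Prod.snd h3)
        · obtain ⟨k', hk'⟩ := conj_range G v k
          rw [IA_true R hk', IA_v]
          intro h3
          exact Bool.noConfusion (congrArg Prod.snd h3)

/-- `ℓ²`-vanishing for a graph and its double -/
theorem l2_double {i : ℕ} : L2Van (DG G v) i ↔ L2Van G i := by
  refine ⟨fun h => l2_of_bd fun c hc => ?_, l2_fold⟩
  have h6 := (bd_of_l2 h (c := 2 * c) (by linarith)).unfold
  rw [mul_div_cancel_left₀ c (by norm_num)] at h6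
  exact h6

end Unfold

end Pool.Agent.Run7.h606.DB
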