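import Pool.Agent.Run7.h606.DB.MG
import Pool.Agent.Run7.h606.DB.Col
import Pool.Agent.TH652.QDef
import Pool.Agent.R781.VS.Contr

/-!
# The classes `LR n` and `LQ b` of finite graphs
-/

set_option autoImplicit false

namespace Pool.Agent.Run7.h606.DB

open Pool.Agent.W907.SG
open Pool.Agent.TH652.Join (join)
open Pool.Agent.TH652.Above (HSph)
open Pool.Agent.R781.VS (con NoSq)

/-- The class `LR n`: a class of finite graphs for which the `ℓ²`-homology of all full subcomplexes vanishes in the
degrees `i > n / 2`. -/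
inductive LR : ℕ → ∀ {V : Type}, SimpleGraph V → Prop
  /-- full subcomplexes of flag homology spheres over the field with two elements, of dimension at most `2 d`, which
  are properly coloured by `d + 1` colours off an amenable set `A` of vertices -/
  | amen {n d : ℕ} {V : Type} [Finite V] (G : SimpleGraph V) (A : Set V) (c : V → Fin (d + 1)) : Full2 n G →
      n ≤ 2 * d + 1 → (∀ a ∈ A, ∀ b ∈ A, ∀ c ∈ A, b ≠ a → c ≠ a → ¬ G.Adj a b → ¬ G.Adj a c → b = c) →
      (∀ x, x ∉ A → ∀ y, y ∉ A → G.Adj x y → c x ≠ c y) → LR (2 * d + 1) G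
  /-- graphs without cliques with more than `d` elements off an amenable set `A` of vertices -/
  | low {d : ℕ} {V : Type} [Finite V] (G : SimpleGraph V) (A : Set V) :
      (∀ a ∈ A, ∀ b ∈ A, ∀ c ∈ A, b ≠ a → c ≠ a → ¬ G.Adj a b → ¬ G.Adj a c → b = c) →
      (∀ T : Finset V, G.IsClique (T : Set V) → Disjoint (T : Set V) A → T.card ≤ d) → LR (2 * d) G
  /-- unfolding: the double of `G` at `v` is in the class -/
  | unfold {n : ℕ} {V : Type} [Fintype V] [LinearOrder V] (G : SimpleGraph V) (v : V) : LR n (DG G v) → LR n G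
  /-- vertex splitting: the edge `st` of `G` is not contained in an induced 4-cycle; the graph obtained by
  contracting it and the links of `s` and `t` are in the class `n + 2`, the link of the edge is in the class `n` -/
  | split {n : ℕ} {V : Type} [Finite V] (G : SimpleGraph V) (s t : V) : G.Adj s t → NoSq G s t →
      LR (n + 2) ((con G s t).induce {t}ᶜ) → LR n (G.induce (G.neighborSet s ∩ G.neighborSet t)) →
      LR (n + 2) (G.induce (G.neighborSet s)) → LR (n + 2) (G.induce (G.neighborSet t)) → LR (n + 2) G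
  /-- full subcomplexes -/
  | full {n : ℕ} {V : Type} (G : SimpleGraph V) (A : Set V) : LR n G → LR n (G.induce A)
  /-- joins -/
  | join {m n : ℕ} {V U : Type} (G : SimpleGraph V) (H : SimpleGraph U) : LR m G → LR n H → LR (m + n) (join G H)
  /-- suspensions -/
  | susp {n : ℕ} {V : Type} (G : SimpleGraph V) : LR n G → LR n (susp G)
  /-- from `n` to `n + 1` -/
  | succ {n : ℕ} {V : Type} (G : SimpleGraph V) : LR n G → LR (n + 1) G
  /-- from `2 m + 1` to `2 m` -/
  | pred {m : ℕ} {V : Type} (G : SimpleGraph V) : LR (2 * m + 1) G → LR (2 * m) G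
  /-- deleting an edge whose link is in the class `n` -/
  | del {n : ℕ} {V : Type} [Finite V] (G : SimpleGraph V) (s t : V) : G.Adj s t → LR (n + 2) G →
      LR n (G.induce (G.neighborSet s ∩ G.neighborSet t)) → LR (n + 2) (G.deleteEdges {s(s, t)})
  /-- even length: the vertices whose links are not in the class `2 m + 1` span a subcomplex of dimension at
  most `m` -/
  | loc {m : ℕ} {V : Type} [Finite V] (G : SimpleGraph V) (B : Set V) :
      (∀ T : Finset V, G.IsClique (T : Set V) → (T : Set V) ⊆ B → T.card ≤ m + 1) →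
      (∀ v, v ∉ B → LR (2 * m + 1) (G.induce (G.neighborSet v))) → LR (2 * m + 2) G
  /-- adding a vertex whose link is in the class `n` -/
  | vert {n : ℕ} {V : Type} [Finite V] (G : SimpleGraph V) (v : V) : LR (n + 2) (G.induce {v}ᶜ) →
      LR n (G.induce (G.neighborSet v)) → LR (n + 2) G
  /-- gluing along a full subcomplex of the class `n` -/
  | glue {n : ℕ} {V : Type} [Finite V] (G : SimpleGraph V) (A B : Set V) : A ∪ B = Set.univ →
      (∀ a ∈ A, a ∉ B → ∀ b ∈ B, b ∉ A → ¬ G.Adj a b) → LR (n + 2) (G.induce A) → LR (n + 2) (G.induce B) →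
      LR n (G.induce (A ∩ B)) → LR (n + 2) G
  /-- isomorphic graphs -/
  | iso {n : ℕ} {V U : Type} (G : SimpleGraph V) (H : SimpleGraph U) : Nonempty (G ≃g H) → LR n G → LR n H

/-- The class `LQ b`: a class of finite graphs for which the `ℓ²`-homology vanishes in all the degrees `≥ b`. -/
inductive LQ : ℕ → ∀ {V : Type}, SimpleGraph V → Prop
  /-- the members of the class `LR n` -/
  | lr {n : ℕ} {V : Type} (G : SimpleGraph V) : LR n G → LQ (n / 2 + 1) G
  /-- unfolding: the double of `G` at `v` is in the class -/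
  | unfold {b : ℕ} {V : Type} [Fintype V] [LinearOrder V] (G : SimpleGraph V) (v : V) : LQ b (DG G v) → LQ b G
  /-- folding -/
  | fold {b : ℕ} {V : Type} [Fintype V] [LinearOrder V] (G : SimpleGraph V) (v : V) : LQ b G → LQ b (DG G v)
  /-- the unfolding rule for pairs -/
  | pair {b : ℕ} (M : MG) : (∀ k, LQ b (M.row k)) → LQ b M.G
  /-- suspensions are in the class `0` -/
  | susp {V : Type} [Finite V] (G : SimpleGraph V) : LQ 0 (susp G)
  /-- odd-dimensional case: homology spheres of dimension `2 m` in the class `m + 1` are in the class `0` -/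
  | sph {m : ℕ} {V : Type} [Fintype V] [LinearOrder V] (G : SimpleGraph V) :
      HSph (2 * m + 1) G → LQ (m + 1) G → LQ 0 G
  /-- even-dimensional case: homology spheres of dimension `2 m - 1` in the class `m + 1` with vanishing Euler
  characteristic `∑_T (-1/2)^|T|` are in the class `0` -/
  | eul {m : ℕ} {V : Type} [Fintype V] [LinearOrder V] (G : SimpleGraph V) :
      HSph (2 * m) G → LQ (m + 1) G → chiW G = 0 → LQ 0 G
  /-- from `b` to `b + 1` -/
  | up {b : ℕ} {V : Type} (G : SimpleGraph V) : LQ b G → LQ (b + 1) G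
  /-- relative subdivisions: the vertices of `O` are added one after the other to the full subcomplex spanned by the
  complement of `O`. For `x ∈ O` the set `lo x` consists of neighbours of `x` of smaller height, it spans a member
  of the class `0`, and all the other neighbours of `x` are adjacent to all the elements of `lo x`. -/
  | sub {b : ℕ} {V : Type} [Finite V] (G : SimpleGraph V) (O : Set V) (lo : V → Set V) (h : V → ℕ) :
      (∀ x ∈ O, ∀ y ∈ lo x, G.Adj x y ∧ h y < h x) →
      (∀ x ∈ O, ∀ w, G.Adj x w → w ∉ lo x → ∀ y ∈ lo x, G.Adj w y) →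
      (∀ x ∈ O, LQ 0 (G.induce (lo x))) → LQ b (G.induce Oᶜ) → LQ b G
  /-- adding a vertex -/
  | vert {b : ℕ} {V : Type} [Finite V] (G : SimpleGraph V) (v : V) : LQ b (G.induce {v}ᶜ) →
      LQ (b - 1) (G.induce (G.neighborSet v)) → LQ b G
  /-- deleting a vertex -/
  | vdel {b : ℕ} {V : Type} [Finite V] (G : SimpleGraph V) (v : V) : LQ b G →
      LQ b (G.induce (G.neighborSet v)) → LQ b (G.induce {v}ᶜ)
  /-- deleting an edge -/
  | del {b : ℕ} {V : Type} [Finite V] (G : SimpleGraph V) (s t : V) : G.Adj s t → LQ b G →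
      LQ (b - 1) (G.induce (G.neighborSet s ∩ G.neighborSet t)) → LQ b (G.deleteEdges {s(s, t)})
  /-- vertex splitting -/
  | split {b : ℕ} {V : Type} [Finite V] (G : SimpleGraph V) (s t : V) : G.Adj s t → NoSq G s t →
      LQ b ((con G s t).induce {t}ᶜ) → LQ (b - 1) (G.induce (G.neighborSet s ∩ G.neighborSet t)) → LQ b G
  /-- gluing along a full subcomplex -/
  | glue {b : ℕ} {V : Type} [Finite V] (G : SimpleGraph V) (A B : Set V) : A ∪ B = Set.univ →
      (∀ a ∈ A, a ∉ B → ∀ b ∈ B, b ∉ A → ¬ G.Adj a b) → LQ b (G.induce A) → LQ b (G.induce B) →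
      LQ (b - 1) (G.induce (A ∩ B)) → LQ b G
  /-- joins -/
  | join {a b : ℕ} {V U : Type} (G : SimpleGraph V) (H : SimpleGraph U) : LQ a G → LQ (b + 1) H →
      LQ (a + b) (join G H)
  /-- isomorphic graphs -/
  | iso {b : ℕ} {V U : Type} (G : SimpleGraph V) (H : SimpleGraph U) : Nonempty (G ≃g H) → LQ b G → LQ b H

end Pool.Agent.Run7.h606.DB
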