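import Pool.Agent.Run7.h606.DB.Amen
import Pool.Agent.TH652.JoinL2

/-!
# The unfolding rule for pairs of vertices which are not adjacent
-/

set_option autoImplicit false
set_option linter.unusedSectionVars false

namespace Pool.Agent.Run7.h606.DB

open Pool.Agent.W907.SG Pool.Agent.W907.SM Pool.Agent.R580.CD Pool.Agent.W461.SGN Pool.Agent.W338.SG

/-- graphs with a marked pair of different vertices which are not adjacent -/
structure MG where
  V : Type
  fV : Fintype V
  oV : LinearOrder V
  G : SimpleGraph V
  v : V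
  w : V
  hwv : w ≠ v
  hn : ¬ G.Adj v w

attribute [instance] MG.fV MG.oV

/-- the double at the first marked vertex, the new marked vertices being the two copies of the second one -/
noncomputable def MG.step (M : MG) : MG where
  V := DV M.G M.v
  fV := inferInstance
  oV := inferInstance
  G := DG M.G M.v
  v := ⟨ic0 M.w, mem0 M.G M.v M.hwv⟩
  w := ⟨ic1 M.G M.v M.w, mem1 M.G M.v M.hwv⟩
  hwv := fun h => M.hn (ic_ne M.G M.v (congrArg Subtype.val h)).2
  hn := fun h => M.G.loopless.irrefl _ h.1

/-- the `k`-th unfolding: `2 ^ k` copies of the complement of the two marked vertices in a row, each glued to the next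
one along the link of the first or of the second marked vertex alternately, and two marked vertices coned off over the
free links at the ends of the row -/
noncomputable def MG.it (M : MG) : ℕ → MG
  | 0 => M
  | k + 1 => (M.it k).step

/-- the part of the `k`-th unfolding without the marked vertices -/
noncomputable def MG.row (M : MG) (k : ℕ) : SimpleGraph ↥({(M.it k).v, (M.it k).w}ᶜ : Set (M.it k).V) :=
  (M.it k).G.induce ({(M.it k).v, (M.it k).w}ᶜ : Set (M.it k).V)

theorem MG.deg (M : MG) (κ : ℕ) (hv : (M.G.neighborSet M.v).ncard ≤ κ) (hw : (M.G.neighborSet M.w).ncard ≤ κ)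
    (k : ℕ) : ((M.it k).G.neighborSet (M.it k).v).ncard ≤ κ ∧ ((M.it k).G.neighborSet (M.it k).w).ncard ≤ κ := by
  induction k with
  | zero => exact ⟨hv, hw⟩
  | succ k ih => exact ⟨(deg0 (M.it k).hwv (M.it k).hn).trans ih.2, (deg1 (M.it k).hwv (M.it k).hn).trans ih.2⟩

theorem MG.unfold (M : MG) {i : ℕ} {c : ℝ} (k : ℕ) (h : Bd (M.it k).G i c) : Bd M.G i (c / 2 ^ k) := by
  induction k generalizing c with
  | zero =>
    rw [pow_zero, div_one]
    exact h
  | succ k ih =>
    have h1 := ih (Bd.unfold (G := (M.it k).G) (v := (M.it k).v) h)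
    rw [div_div, ← pow_succ'] at h1
    exact h1

/-- **The unfolding rule for pairs.** -/
theorem MG.l2 (M : MG) {i : ℕ} (h : ∀ k, LV (M.row k) i) : L2Van M.G i := by
  classical
  set κ := (M.G.neighborSet M.v).ncard + (M.G.neighborSet M.w).ncard with hκ
  refine l2_of_bd fun c hc => ?_
  obtain ⟨k, hk⟩ := pow_unbounded_of_one_lt ((1 + 2 ^ κ + 2 ^ κ : ℝ) / c) (show (1 : ℝ) < 2 by norm_num)
  obtain ⟨h1, h2⟩ := M.deg κ (by omega) (by omega) k
  refine (M.unfold k (bd_pair (M.it k).hwv.symm h1 h2 (h k _ _))).mono ?_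
  rw [div_lt_iff₀ hc] at hk
  rw [div_le_iff₀ (by positivity)]
  linarith

end Pool.Agent.Run7.h606.DB
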