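import Pool.Agent.Run7.h606.DB.Gal
import Pool.Agent.R580.CD.Amp

/-!
# Joins with cycles, unfolding and central symmetry
-/

set_option autoImplicit false
set_option linter.unusedSectionVars false

namespace Pool.Agent.Run7.h606.DB

open Finset Polynomial Pool.Agent.W907.SG Pool.Agent.R580.CD

/-- `P m` is a property of flag homology spheres over `F` of dimension `2 m - 1`; it is inherited by the doubles and
by the joins with the cycles with at least four vertices (from `P m` to `P (m + 1)`). -/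
structure JC (F : Type) [Field F] (P : ℕ → ∀ (V : Type) [Fintype V] [LinearOrder V], SimpleGraph V → Prop) :
    Prop where
  sph : ∀ (m : ℕ) (V : Type) [Fintype V] [LinearOrder V] (G : SimpleGraph V), P m V G → Sph F (2 * m) G
  dbl : ∀ (m : ℕ) (V : Type) [Fintype V] [LinearOrder V] (G : SimpleGraph V) (v : V), P m V G → P m (DV G v) (DG G v)
  join : ∀ (m : ℕ) (V : Type) [Fintype V] [LinearOrder V] (G : SimpleGraph V) (k : ℕ), 4 ≤ k → P m V G →
    P (m + 1) (V ⊕ₗ Fin k) (jn G k)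

/-- making a sphere centrally symmetric by unfolding along a facet -/
theorem csym_of {P : ∀ (V : Type) [Fintype V] [LinearOrder V], SimpleGraph V → Prop}
    (hP : ∀ (V : Type) [Fintype V] [LinearOrder V] (G : SimpleGraph V) (v : V), P V G → P (DV G v) (DG G v))
    {V : Type} [Fintype V] [LinearOrder V] {G : SimpleGraph V} {n : ℕ}
    (hn : ∀ T : Finset V, G.IsClique (T : Set V) → T.card ≤ n) (h : P V G) :
    ∃ (t : ℕ) (U : Type) (_ : Fintype U) (_ : LinearOrder U) (H : SimpleGraph U), t ≤ n ∧ P U H ∧ Rel t G H ∧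
      CSym H := by
  classical
  obtain ⟨T, hT⟩ : ∃ T : Finset V, G.IsClique (T : Set V) ∧ ∀ x, x ∉ T → ∃ t ∈ T, ¬ G.Adj x t := by
    obtain ⟨T, hT1, hT2⟩ := Finset.exists_max_image (Finset.univ.filter fun T : Finset V => G.IsClique (T : Set V))
      Finset.card ⟨∅, by simp⟩
    rw [Finset.mem_filter] at hT1
    refine ⟨T, hT1.2, fun x hx => ?_⟩
    by_contra hcon
    push Not at hcon
    have h4 := hT2 (insert x T) (by
      rw [Finset.mem_filter]
      refine ⟨Finset.mem_univ _, ?_⟩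
      rw [Finset.coe_insert, SimpleGraph.isClique_insert]
      exact ⟨hT1.2, fun b hb _ => hcon b hb⟩)
    rw [Finset.card_insert_of_notMem hx] at h4
    omega
  obtain ⟨U, i1, i2, H, h4, h5, _, h7⟩ := sym (P := fun _ V _ _ G => P V G) (fun _ V _ _ G v h => hP V G v h)
    T.card 0 V G id T h
    ⟨fun _ => rfl, fun _ _ => Iff.rfl, fun x => G.loopless.irrefl x, hT.1, fun _ _ => rfl, fun x _ hx => hT.2 x hx⟩ rfl
  exact ⟨T.card, U, i1, i2, H, hn T hT.1, h4, h5, h7⟩

theorem chi_jn {V : Type} [Fintype V] [LinearOrder V] (G : SimpleGraph V) {k : ℕ} (hk : 4 ≤ k) :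
    chiW (jn G k) = (1 - k / 4) * chiW G := by
  rw [chiW_eq, chiW_eq, fp_jn hk, eval₂_mul, eval₂_add, eval₂_add, eval₂_mul, eval₂_mul, eval₂_pow, eval₂_X,
    eval₂_one, eval₂_natCast]
  ring

theorem many_cycles {F : Type} [Field F] {P : ℕ → ∀ (V : Type) [Fintype V] [LinearOrder V], SimpleGraph V → Prop}
    (hP : JC F P) {m : ℕ} {V : Type} [Fintype V] [LinearOrder V] {G : SimpleGraph V} (h : P m V G) {k : ℕ}
    (hk : 4 ≤ k) (j : ℕ) : ∃ (U : Type) (_ : Fintype U) (_ : LinearOrder U) (H : SimpleGraph U), P (m + j) U H ∧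
      Fintype.card U = Fintype.card V + j * k ∧ chiW H = (1 - k / 4) ^ j * chiW G := by
  induction j with
  | zero => exact ⟨V, inferInstance, inferInstance, G, h, by simp, by simp⟩
  | succ j ih =>
    obtain ⟨U, i1, i2, H, h1, h2, h3⟩ := ih
    refine ⟨U ⊕ₗ Fin k, inferInstance, inferInstance, jn H k, hP.join _ _ _ k hk h1, ?_, ?_⟩
    · have h4 : Fintype.card (U ⊕ₗ Fin k) = Fintype.card (U ⊕ Fin k) := rfl
      rw [h4, Fintype.card_sum, Fintype.card_fin, h2]
      ring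
    · rw [chi_jn H hk, h3, pow_succ]
      ring

theorem many_dbl {F : Type} [Field F] {P : ℕ → ∀ (V : Type) [Fintype V] [LinearOrder V], SimpleGraph V → Prop}
    (hP : JC F P) {m : ℕ} (hm : 1 ≤ m) {V : Type} [Fintype V] [LinearOrder V] {G : SimpleGraph V} (h : P m V G)
    (k : ℕ) : ∃ (U : Type) (_ : Fintype U) (_ : LinearOrder U) (H : SimpleGraph U), P m U H ∧ Rel k G H := by
  induction k with
  | zero => exact ⟨V, inferInstance, inferInstance, G, h, Rel.refl G⟩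
  | succ k ih =>
    obtain ⟨U, i1, i2, H, h1, h2⟩ := ih
    obtain ⟨v, _⟩ := (hP.sph m U H h1).exists_mem (T := ∅) (by simp) (by rw [card_empty]; omega)
    exact ⟨DV H v, inferInstance, inferInstance, DG H v, hP.dbl m U H v h1, h2.trans (Rel.double H v)⟩

/-- **Amplification.** -/
theorem chi_amp {F : Type} [Field F] {P : ℕ → ∀ (V : Type) [Fintype V] [LinearOrder V], SimpleGraph V → Prop}
    (hP : JC F P) {m : ℕ} (hm : 1 ≤ m) {V : Type} [Fintype V] [LinearOrder V] {G : SimpleGraph V} (h : P m V G)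
    (hχ : chiW G ≠ 0) (j : ℕ) : ∃ c : ℚ, 0 < c ∧ ∀ M : ℕ,
      ∃ (U : Type) (_ : Fintype U) (_ : LinearOrder U) (H : SimpleGraph U), P (m + j) U H ∧ CSym H ∧
        M ≤ Fintype.card U ∧ c * (Fintype.card U : ℚ) ^ (j + 1) ≤ |chiW H| := by
  classical
  have hV : 0 < Fintype.card V := by
    obtain ⟨v, _⟩ := (hP.sph m V G h).exists_mem (T := ∅) (by simp) (by rw [card_empty]; omega)
    exact Fintype.card_pos_iff.2 ⟨v⟩
  set n := 2 * (m + j) with hn
  set K : ℚ := 2 ^ n * (Fintype.card V + 8 * j) with hK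
  have hK0 : 0 < K := by
    have : (0 : ℚ) < Fintype.card V := by exact_mod_cast hV
    positivity
  have hχ0 : 0 < |chiW G| := abs_pos.2 hχ
  refine ⟨|chiW G| / K ^ (j + 1), by positivity, fun M => ?_⟩
  obtain ⟨k, hk⟩ := pow_unbounded_of_one_lt (2 ^ M / |chiW G|) (show (1 : ℚ) < 2 by norm_num)
  rw [div_lt_iff₀ hχ0] at hk
  obtain ⟨U1, i1, i2, H1, h1, h2⟩ := many_dbl hP hm h k
  have hL : 4 ≤ 8 * 2 ^ k := by
    have := Nat.one_le_two_pow (n := k)
    omega
  obtain ⟨U2, i3, i4, H2, h3, h4, h5⟩ := many_cycles hP h1 hL j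
  obtain ⟨t, U, i5, i6, H, ht, h6, h7, h8⟩ := csym_of (P := P (m + j)) (fun V _ _ G v h => hP.dbl _ V G v h)
    (fun T hT => (hP.sph _ _ _ h3).card hT) h3
  have h2k : (1 : ℚ) ≤ 2 ^ k := one_le_pow₀ (by norm_num)
  have hchi1 : |chiW H1| = 2 ^ k * |chiW G| := by
    rw [h2.chi, abs_mul, abs_of_pos (by positivity)]
  have hchi2 : (2 ^ k : ℚ) ^ (j + 1) * |chiW G| ≤ |chiW H2| := by
    rw [h5, abs_mul, hchi1, abs_pow]
    have h9 : (2 : ℚ) ^ k ≤ |1 - ((8 * 2 ^ k : ℕ) : ℚ) / 4| := by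
      rw [le_abs]
      right
      push_cast
      linarith
    have h10 : ((2 : ℚ) ^ k) ^ j ≤ |1 - ((8 * 2 ^ k : ℕ) : ℚ) / 4| ^ j := pow_le_pow_left₀ (by positivity) h9 j
    calc (2 ^ k : ℚ) ^ (j + 1) * |chiW G| = (2 ^ k) ^ j * (2 ^ k * |chiW G|) := by ring
      _ ≤ _ := mul_le_mul_of_nonneg_right h10 (by positivity)
  have hchi3 : |chiW H| = 2 ^ t * |chiW H2| := by
    rw [h7.chi, abs_mul, abs_of_pos (by positivity)]
  have ht1 : (1 : ℚ) ≤ 2 ^ t := one_le_pow₀ (by norm_num)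
  have hchi4 : (2 ^ k : ℚ) ^ (j + 1) * |chiW G| ≤ |chiW H| := by
    rw [hchi3]
    have h9 : 0 ≤ |chiW H2| := abs_nonneg _
    nlinarith
  have hcard : (Fintype.card U : ℚ) ≤ K * 2 ^ k := by
    have h9 : (Fintype.card U : ℚ) ≤ 2 ^ t * Fintype.card U2 := by exact_mod_cast h7.le
    have h10 : (Fintype.card U1 : ℚ) ≤ 2 ^ k * Fintype.card V := by exact_mod_cast h2.le
    have h11 : (Fintype.card U2 : ℚ) = Fintype.card U1 + j * (8 * 2 ^ k) := by exact_mod_cast h4
    have h12 : (2 : ℚ) ^ t ≤ 2 ^ n := pow_le_pow_right₀ (by norm_num) ht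
    have h13 : (Fintype.card U2 : ℚ) ≤ (Fintype.card V + 8 * j) * 2 ^ k := by
      rw [h11]
      linarith
    have h14 : (0 : ℚ) ≤ Fintype.card U2 := Nat.cast_nonneg _
    calc (Fintype.card U : ℚ) ≤ 2 ^ t * Fintype.card U2 := h9
      _ ≤ 2 ^ n * Fintype.card U2 := mul_le_mul_of_nonneg_right h12 h14
      _ ≤ 2 ^ n * ((Fintype.card V + 8 * j) * 2 ^ k) := mul_le_mul_of_nonneg_left h13 (by positivity)
      _ = K * 2 ^ k := by rw [hK]; ring
  refine ⟨U, i5, i6, H, h6, h8, ?_, ?_⟩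
  · by_contra hcon
    push Not at hcon
    have h9 := chi_le H
    have h10 : (2 : ℚ) ^ Fintype.card U ≤ 2 ^ M := pow_le_pow_right₀ (by norm_num) hcon.le
    have h11 : (2 ^ k : ℚ) ≤ (2 ^ k) ^ (j + 1) := le_self_pow₀ h2k (by omega)
    have h12 : (2 ^ k : ℚ) * |chiW G| ≤ (2 ^ k) ^ (j + 1) * |chiW G| := mul_le_mul_of_nonneg_right h11 hχ0.le
    linarith
  · have h9 : (Fintype.card U : ℚ) ^ (j + 1) ≤ (K * 2 ^ k) ^ (j + 1) := pow_le_pow_left₀ (Nat.cast_nonneg _) hcard _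
    calc |chiW G| / K ^ (j + 1) * (Fintype.card U : ℚ) ^ (j + 1)
        ≤ |chiW G| / K ^ (j + 1) * (K * 2 ^ k) ^ (j + 1) := mul_le_mul_of_nonneg_left h9 (by positivity)
      _ = (2 ^ k) ^ (j + 1) * |chiW G| := by
          have hK1 : K ^ (j + 1) ≠ 0 := pow_ne_zero _ hK0.ne'
          clear_value K
          rw [mul_pow K, div_mul_eq_mul_div, div_eq_iff hK1]
          ring
      _ ≤ |chiW H| := hchi4

/-- the empty complex and the pentagon -/
theorem exists_pos {F : Type} [Field F] {P : ℕ → ∀ (V : Type) [Fintype V] [LinearOrder V], SimpleGraph V → Prop}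
    (hP : JC F P) {m : ℕ} {V : Type} [Fintype V] [LinearOrder V] {G : SimpleGraph V} (h : P m V G)
    (hχ : chiW G ≠ 0) : ∃ (m' : ℕ) (U : Type) (_ : Fintype U) (_ : LinearOrder U) (H : SimpleGraph U), 1 ≤ m' ∧
      P m' U H ∧ chiW H ≠ 0 := by
  refine ⟨m + 1, V ⊕ₗ Fin 5, inferInstance, inferInstance, jn G 5, by omega, hP.join _ _ _ 5 (by norm_num) h, ?_⟩
  rw [chi_jn G (by norm_num)]
  refine mul_ne_zero ?_ hχ
  norm_num

end Pool.Agent.Run7.h606.DB
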