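import Pool.Agent.Run7.h606.DB.Amen
import Pool.Agent.Run7.h606.DB.Chi
import Pool.Agent.Y132.SI.Up
import Pool.Agent.TH652.Above

/-!
# Iterated doubles: many vertices, and involutions without invariant faces
-/

set_option autoImplicit false
set_option linter.unusedSectionVars false

namespace Pool.Agent.Run7.h606.DB

open Pool.Agent.W907.SG Pool.Agent.W907.SM Pool.Agent.R580.CD Pool.Agent.W461.SGN Pool.Agent.W338.SG

/-- vanishing in positive degrees for amenable groups -/
theorem l2_amenable {V : Type} [Fintype V] [LinearOrder V] {G : SimpleGraph V} (h : Amen G Set.univ) {i : ℕ}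
    (hi : 1 ≤ i) : L2Van G i := by
  refine amen_main (P := fun V _ _ _ B => B = (∅ : Set V)) ⟨?_, ?_⟩ (i := i) ?_ _ V G ∅ rfl
    (by rw [Set.compl_empty]; exact h) le_rfl
  · intro V _ _ G B v _ hB
    ext p
    have h1 : (ofLex (p : V ×ₗ Bool)).1 ∉ B := by
      rw [hB]
      exact Set.notMem_empty _
    exact iff_of_false h1 (Set.notMem_empty _)
  · intro V _ _ G B s _ _ hB
    ext p
    have h1 : (p : V) ∉ B := by
      rw [hB]
      exact Set.notMem_empty _
    exact iff_of_false h1 (Set.notMem_empty _)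
  · intro V _ _ G hB
    have : IsEmpty V := ⟨fun x => by
      have h1 : x ∈ (Set.univ : Set V) := trivial
      rw [hB] at h1
      exact h1⟩
    exact lempty V G i hi _ _

/-- a vertex with two vertices which are not adjacent to it -/
def Tri {V : Type} (G : SimpleGraph V) (a b c : V) : Prop :=
  b ≠ a ∧ c ≠ a ∧ b ≠ c ∧ ¬ G.Adj a b ∧ ¬ G.Adj a c

theorem exists_tri {V : Type} [Fintype V] [LinearOrder V] {G : SimpleGraph V} {i : ℕ} (hi : 1 ≤ i)
    (h : ¬ L2Van G i) : ∃ a b c, Tri G a b c := by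
  by_contra hcon
  apply h
  refine l2_amenable (fun a _ b _ c _ h1 h2 h3 h4 => ?_) hi
  by_contra hbc
  exact hcon ⟨a, b, c, h1, h2, hbc, h3, h4⟩

section Index

variable {V : Type} [Fintype V] [LinearOrder V] (G : SimpleGraph V) (v : V)

theorem odd_notMem (h : W (DG G v)) : jh G v h * (cox G).simple v ∉ (jh G v).range := by
  rintro ⟨k, hk⟩
  have h1 := IA_false (regAct (DG G v)) k 1
  have h2 := (IA (regAct (DG G v))).mul (1, false) (jh G v h) ((cox G).simple v)
  rw [← hk, h1, IA_false, IA_v] at h2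
  exact Bool.noConfusion (congrArg Prod.snd h2)

theorem index_two : (jh G v).range.index = 2 := by
  rw [Subgroup.index_eq_two_iff]
  refine ⟨(cox G).simple v, fun b => ?_⟩
  rcases even_odd G v b with ⟨h, hb⟩ | ⟨h, hb⟩
  · refine Or.inr ⟨⟨h, hb⟩, ?_⟩
    rw [← hb]
    exact odd_notMem G v h
  · refine Or.inl ⟨?_, ?_⟩
    · refine ⟨h, ?_⟩
      rw [← hb, mul_assoc, simple_mul_self, mul_one]
    · rw [← hb]
      exact odd_notMem G v h

theorem jh_inj : Function.Injective (jh G v) := by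
  rw [injective_iff_map_eq_one]
  intro h hh
  by_contra hne
  exact jh_ne hne hh

end Index

/-- the relation between a graph and an iterated double -/
structure Rel (k : ℕ) {V : Type} [Fintype V] [LinearOrder V] (G : SimpleGraph V) {U : Type} [Fintype U]
    [LinearOrder U] (H : SimpleGraph U) : Prop where
  bd : ∀ (i : ℕ) (c : ℝ), Bd H i c → Bd G i (c / 2 ^ k)
  sub : ∃ f : W H →* W G, Function.Injective f ∧ f.range.index = 2 ^ k
  le : Fintype.card U ≤ 2 ^ k * Fintype.card V
  cl : ∀ T : Finset U, H.IsClique (T : Set U) → ∃ T' : Finset V, G.IsClique (T' : Set V) ∧ T'.card = T.card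
  chi : chiW H = 2 ^ k * chiW G

theorem Rel.refl {V : Type} [Fintype V] [LinearOrder V] (G : SimpleGraph V) : Rel 0 G G where
  bd i c h := by rwa [pow_zero, div_one]
  sub := ⟨MonoidHom.id _, Function.injective_id, by
    rw [MonoidHom.range_eq_top.2 Function.surjective_id, Subgroup.index_top, pow_zero]⟩
  le := by rw [pow_zero, one_mul]
  cl T hT := ⟨T, hT, rfl⟩
  chi := by rw [pow_zero, one_mul]

theorem Rel.trans {V U T : Type} [Fintype V] [LinearOrder V] [Fintype U] [LinearOrder U] [Fintype T] [LinearOrder T]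
    {G : SimpleGraph V} {H : SimpleGraph U} {K : SimpleGraph T} {j k : ℕ} (h1 : Rel j G H) (h2 : Rel k H K) :
    Rel (j + k) G K where
  bd i c h := by
    have := h1.bd i _ (h2.bd i c h)
    rw [div_div, ← pow_add, add_comm k j] at this
    exact this
  sub := by
    obtain ⟨f, hf, hfi⟩ := h1.sub
    obtain ⟨g, hg, hgi⟩ := h2.sub
    refine ⟨f.comp g, hf.comp hg, ?_⟩
    rw [MonoidHom.range_comp, Subgroup.index_map, (MonoidHom.ker_eq_bot_iff f).2 hf, sup_bot_eq, hgi, hfi, pow_add,
      mul_comm]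
  le := h2.le.trans (by
    rw [pow_add, mul_assoc, mul_left_comm]
    exact Nat.mul_le_mul_left _ h1.le)
  cl S hS := by
    obtain ⟨S', h3, h4⟩ := h2.cl S hS
    obtain ⟨S'', h5, h6⟩ := h1.cl S' h3
    exact ⟨S'', h5, h6.trans h4⟩
  chi := by rw [h2.chi, h1.chi, pow_add]; ring

theorem Rel.double {V : Type} [Fintype V] [LinearOrder V] (G : SimpleGraph V) (v : V) : Rel 1 G (DG G v) where
  bd i c h := by
    rw [pow_one]
    exact h.unfold
  sub := ⟨jh G v, jh_inj G v, by rw [index_two, pow_one]⟩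
  le := by
    have h1 : Fintype.card (DV G v) ≤ Fintype.card (V ×ₗ Bool) :=
      Fintype.card_le_of_injective (fun p => (p : V ×ₗ Bool)) Subtype.val_injective
    have h2 : Fintype.card (V ×ₗ Bool) = 2 ^ 1 * Fintype.card V := by
      have h3 : Fintype.card (V ×ₗ Bool) = Fintype.card (V × Bool) := Fintype.card_congr ofLex
      rw [h3, Fintype.card_prod, Fintype.card_bool, pow_one, mul_comm]
    omega
  cl T hT := by
    classical
    refine ⟨T.image fun p : DV G v => (ofLex (p : V ×ₗ Bool)).1, ?_, ?_⟩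
    · intro x hx y hy hxy
      rw [Finset.mem_coe, Finset.mem_image] at hx hy
      obtain ⟨p, hp, rfl⟩ := hx
      obtain ⟨q, hq, rfl⟩ := hy
      exact (hT hp hq fun e => hxy (by rw [e])).1
    · refine Finset.card_image_of_injOn ?_
      intro p hp q hq hpq
      by_contra hne
      have h1 : G.Adj (ofLex (p : V ×ₗ Bool)).1 (ofLex (q : V ×ₗ Bool)).1 := (hT hp hq hne).1
      beta_reduce at hpq
      rw [hpq] at h1
      exact G.loopless.irrefl _ h1
  chi := by rw [pow_one, chi_double]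

/-- closed under doubling; the index is the number of doublings -/
def Clo1 (P : ℕ → ∀ (V : Type) [Fintype V] [LinearOrder V], SimpleGraph V → Prop) : Prop :=
  ∀ (k : ℕ) (V : Type) [Fintype V] [LinearOrder V] (G : SimpleGraph V) (v : V), P k V G → P (k + 1) (DV G v) (DG G v)

/-- the double has more vertices -/
theorem card_double {V : Type} [Fintype V] [LinearOrder V] {G : SimpleGraph V} {a b c : V} (h : Tri G a b c) :
    Fintype.card V + 1 ≤ Fintype.card (DV G a) ∧ ∃ a' b' c', Tri (DG G a) a' b' c' := by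
  classical
  obtain ⟨hb, hc, hbc, hab, hac⟩ := h
  have hb1 : (ic1 G a b : V ×ₗ Bool) ∉ hA a := by
    rintro ⟨y, _, hy⟩
    obtain ⟨rfl, h1⟩ := ic_ne G a hy.symm
    exact hab h1
  have hc1 : (ic1 G a c : V ×ₗ Bool) ∉ hA a := by
    rintro ⟨y, _, hy⟩
    obtain ⟨rfl, h1⟩ := ic_ne G a hy.symm
    exact hac h1
  have hb0 : (ic0 b : V ×ₗ Bool) ∉ hB G a := by
    rintro ⟨y, _, hy⟩
    obtain ⟨rfl, h1⟩ := ic_ne G a hy
    exact hab h1
  constructor
  · have h1 : Fintype.card (Option V) = Fintype.card V + 1 := Fintype.card_option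
    rw [← h1]
    refine Fintype.card_le_of_injective (fun x : Option V => match x with
      | none => (⟨ic1 G a c, mem1 G a hc⟩ : DV G a)
      | some u => if h : u = a then ⟨ic1 G a b, mem1 G a hb⟩ else ⟨ic0 u, mem0 G a h⟩) ?_
    have h2 : ∀ u : V, ∀ h : u ≠ a, (⟨ic0 u, mem0 G a h⟩ : DV G a) ≠ ⟨ic1 G a c, mem1 G a hc⟩ := by
      intro u h e
      have h5 : (ic0 u : V ×ₗ Bool) = ic1 G a c := congrArg Subtype.val e
      apply hc1
      rw [← h5]
      exact ⟨u, h, rfl⟩
    have h3 : ∀ u : V, ∀ h : u ≠ a, (⟨ic0 u, mem0 G a h⟩ : DV G a) ≠ ⟨ic1 G a b, mem1 G a hb⟩ := by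
      intro u h e
      have h5 : (ic0 u : V ×ₗ Bool) = ic1 G a b := congrArg Subtype.val e
      apply hb1
      rw [← h5]
      exact ⟨u, h, rfl⟩
    have h4 : (⟨ic1 G a b, mem1 G a hb⟩ : DV G a) ≠ ⟨ic1 G a c, mem1 G a hc⟩ := by
      intro e
      exact hbc ((ic1 G a).injective (congrArg Subtype.val e))
    rintro (_ | u) (_ | w) e
    · rfl
    · dsimp only at e
      split_ifs at e with h5
      · exact absurd e.symm h4
      · exact absurd e.symm (h2 w h5)
    · dsimp only at e
      split_ifs at e with h5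
      · exact absurd e h4
      · exact absurd e (h2 u h5)
    · dsimp only at e
      split_ifs at e with h5 h6 h6
      · rw [h5, h6]
      · exact absurd e.symm (h3 w h6)
      · exact absurd e (h3 u h5)
      · rw [ic0.injective (congrArg Subtype.val e)]
  · refine ⟨⟨ic0 b, mem0 G a hb⟩, ⟨ic1 G a b, mem1 G a hb⟩, ⟨ic1 G a c, mem1 G a hc⟩, ?_, ?_, ?_, ?_, ?_⟩
    · intro e
      exact hab (ic_ne G a (congrArg Subtype.val e)).2
    · intro e
      exact hbc ((ic_ne G a (congrArg Subtype.val e)).1).symm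
    · intro e
      exact hbc ((ic1 G a).injective (congrArg Subtype.val e))
    · intro e
      exact G.loopless.irrefl _ e.1
    · rintro ⟨_, h5 | h5⟩
      · exact hc1 h5.2
      · exact hb0 h5.1

/-- iterated doubles with many vertices -/
theorem grow {P : ℕ → ∀ (V : Type) [Fintype V] [LinearOrder V], SimpleGraph V → Prop} (hP : Clo1 P) (k : ℕ) :
    ∀ (j : ℕ) (V : Type) [Fintype V] [LinearOrder V] (G : SimpleGraph V) (a b c : V), P j V G → Tri G a b c →
      ∃ (U : Type) (_ : Fintype U) (_ : LinearOrder U) (H : SimpleGraph U), P (j + k) U H ∧ Rel k G H ∧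
        Fintype.card V + k ≤ Fintype.card U := by
  induction k with
  | zero =>
    intro j V _ _ G a b c h _
    exact ⟨V, _, _, G, h, Rel.refl G, le_rfl⟩
  | succ k ih =>
    intro j V _ _ G a b c h ht
    obtain ⟨h1, a', b', c', ht'⟩ := card_double ht
    obtain ⟨U, i1, i2, H, h2, h3, h4⟩ := ih (j + 1) (DV G a) (DG G a) a' b' c' (hP j V G a h) ht'
    rw [add_right_comm, add_assoc] at h2
    refine ⟨U, i1, i2, H, h2, ?_, by omega⟩
    have h5 := (Rel.double G a).trans h3
    rw [add_comm 1 k] at h5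
    exact h5

/-- The graph has an involution such that no vertex is equal or adjacent to its image; the involution of the flag
complex has no invariant face. -/
def CSym {V : Type} (G : SimpleGraph V) : Prop :=
  ∃ σ : V → V, (∀ x, σ (σ x) = x) ∧ (∀ x y, G.Adj (σ x) (σ y) ↔ G.Adj x y) ∧ ∀ x, σ x ≠ x ∧ ¬ G.Adj x (σ x)

/-- an involution with a maximal clique of fixed vertices -/
structure Par {V : Type} (G : SimpleGraph V) (σ : V → V) (T : Finset V) : Prop where
  inv : ∀ x, σ (σ x) = x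
  aut : ∀ x y, G.Adj (σ x) (σ y) ↔ G.Adj x y
  non : ∀ x, ¬ G.Adj x (σ x)
  clique : G.IsClique (T : Set V)
  fix : ∀ t ∈ T, σ t = t
  max : ∀ x, σ x = x → x ∉ T → ∃ t ∈ T, ¬ G.Adj x t

section Swap

variable {V : Type} [Fintype V] [LinearOrder V] {G : SimpleGraph V} {σ : V → V} {T : Finset V} {v : V}

/-- the image in the other half -/
noncomputable def sw (G : SimpleGraph V) (v : V) (σ : V → V) (p : V ×ₗ Bool) : V ×ₗ Bool :=
  if (ofLex p).2 then ic0 (σ (ofLex p).1) else ic1 G v (σ (ofLex p).1)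

theorem sw0 (u : V) : sw G v σ (ic0 u) = ic1 G v (σ u) := rfl

theorem sw1 (haut : ∀ x y, G.Adj (σ x) (σ y) ↔ G.Adj x y) (hv : σ v = v) (u : V) :
    sw G v σ (ic1 G v u) = ic0 (σ u) := by
  classical
  by_cases h : G.Adj v u
  · rw [ic_eq G v h, sw0]
    refine ic_eq G v ?_
    have h1 := (haut v u).2 h
    rwa [hv] at h1
  · have h1 : (ofLex (ic1 G v u)).2 = true := by
      show (if G.Adj v u then false else true) = true
      rw [if_neg h]
    unfold sw
    rw [if_pos h1]
    rfl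

theorem sw_fst (p : V ×ₗ Bool) : (ofLex (sw G v σ p)).1 = σ (ofLex p).1 := by
  unfold sw
  split_ifs
  · rfl
  · rfl

theorem sw_half (haut : ∀ x y, G.Adj (σ x) (σ y) ↔ G.Adj x y) (hinv : ∀ x, σ (σ x) = x) (hv : σ v = v) :
    (∀ p ∈ hA v, sw G v σ p ∈ hB G v) ∧ ∀ p ∈ hB G v, sw G v σ p ∈ hA v := by
  have hne : ∀ u, u ≠ v → σ u ≠ v := fun u hu h => hu (by rw [← hinv u, h, hv])
  constructor
  · rintro _ ⟨u, hu, rfl⟩
    exact ⟨σ u, hne u hu, (sw0 u).symm⟩
  · rintro _ ⟨u, hu, rfl⟩
    exact ⟨σ u, hne u hu, (sw1 haut hv u).symm⟩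

end Swap

/-- unfolding along the clique of fixed vertices -/
theorem sym {P : ℕ → ∀ (V : Type) [Fintype V] [LinearOrder V], SimpleGraph V → Prop} (hP : Clo1 P) (m : ℕ) :
    ∀ (j : ℕ) (V : Type) [Fintype V] [LinearOrder V] (G : SimpleGraph V) (σ : V → V) (T : Finset V), P j V G →
      Par G σ T → T.card = m →
      ∃ (U : Type) (_ : Fintype U) (_ : LinearOrder U) (H : SimpleGraph U), P (j + m) U H ∧ Rel m G H ∧
        Fintype.card V ≤ Fintype.card U + m ∧ CSym H := by
  classical
  induction m with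
  | zero =>
    intro j V _ _ G σ T h hp hT
    rw [Finset.card_eq_zero] at hT
    refine ⟨V, _, _, G, h, Rel.refl G, by omega, σ, hp.inv, hp.aut, fun x => ⟨fun hx => ?_, hp.non x⟩⟩
    obtain ⟨t, ht, _⟩ := hp.max x hx (by rw [hT]; exact Finset.notMem_empty _)
    rw [hT] at ht
    exact Finset.notMem_empty _ ht
  | succ m ih =>
    intro j V _ _ G σ T h hp hT
    obtain ⟨v, hv⟩ : T.Nonempty := by
      rw [← Finset.card_pos]
      omega
    have hσv := hp.fix v hv
    have hsw := sw_half (G := G) hp.aut hp.inv hσv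
    set τ : DV G v → DV G v := fun p => ⟨sw G v σ p, (p.2.imp (hsw.1 _) (hsw.2 _)).symm⟩ with hτ
    set em : V ↪ V ×ₗ Bool := ic0 with hem
    have hTv : ∀ t ∈ T.erase v, t ≠ v := fun t ht => Finset.ne_of_mem_erase ht
    set T' : Finset (DV G v) := (T.erase v).attach.image fun t => ⟨ic0 t.1, mem0 G v (hTv t.1 t.2)⟩ with hT'
    have hmem : ∀ p : DV G v, p ∈ T' ↔ ∃ t, ∃ h : t ≠ v, t ∈ T ∧ p = ⟨ic0 t, mem0 G v h⟩ := by
      intro p
      rw [hT', Finset.mem_image]
      constructor
      · rintro ⟨t, _, rfl⟩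
        exact ⟨t.1, hTv t.1 t.2, Finset.mem_of_mem_erase t.2, rfl⟩
      · rintro ⟨t, ht, htT, rfl⟩
        exact ⟨⟨t, Finset.mem_erase.2 ⟨ht, htT⟩⟩, Finset.mem_attach _ _, rfl⟩
    have hnb : ∀ t ∈ T, t ≠ v → G.Adj v t := fun t ht htv => hp.clique hv ht htv.symm
    have hpar : Par (DG G v) τ T' := by
      refine ⟨?_, ?_, ?_, ?_, ?_, ?_⟩
      · intro p
        apply Subtype.ext
        rcases dv_cases G v p with ⟨u, hu, rfl⟩ | ⟨u, hu, rfl⟩
        · show sw G v σ (sw G v σ (ic0 u)) = ic0 u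
          rw [sw0, sw1 hp.aut hσv, hp.inv]
        · show sw G v σ (sw G v σ (ic1 G v u)) = ic1 G v u
          rw [sw1 hp.aut hσv, sw0, hp.inv]
      · intro p q
        have hinvsw : ∀ p : DV G v, sw G v σ (sw G v σ p) = p := by
          intro p
          rcases dv_cases G v p with ⟨u, hu, rfl⟩ | ⟨u, hu, rfl⟩
          · show sw G v σ (sw G v σ (ic0 u)) = ic0 u
            rw [sw0, sw1 hp.aut hσv, hp.inv]
          · show sw G v σ (sw G v σ (ic1 G v u)) = ic1 G v u
            rw [sw1 hp.aut hσv, sw0, hp.inv]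
        have hiA : ∀ p : DV G v, sw G v σ p ∈ hA v ↔ (p : V ×ₗ Bool) ∈ hB G v := by
          intro p
          refine ⟨fun h1 => ?_, hsw.2 _⟩
          have h2 := hsw.1 _ h1
          rwa [hinvsw] at h2
        have hiB : ∀ p : DV G v, sw G v σ p ∈ hB G v ↔ (p : V ×ₗ Bool) ∈ hA v := by
          intro p
          refine ⟨fun h1 => ?_, hsw.1 _⟩
          have h2 := hsw.2 _ h1
          rwa [hinvsw] at h2
        show (G.Adj (ofLex (sw G v σ p)).1 (ofLex (sw G v σ q)).1 ∧ ((sw G v σ p ∈ hA v ∧ sw G v σ q ∈ hA v) ∨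
          (sw G v σ p ∈ hB G v ∧ sw G v σ q ∈ hB G v))) ↔ (G.Adj _ _ ∧ _)
        rw [sw_fst, sw_fst, hp.aut, hiA, hiA, hiB, hiB]
        exact and_congr_right fun _ => or_comm
      · intro p hpp
        have h1 : G.Adj (ofLex (p : V ×ₗ Bool)).1 (ofLex (sw G v σ p)).1 := hpp.1
        rw [sw_fst] at h1
        exact hp.non _ h1
      · intro p hpp q hq hpq
        obtain ⟨x, hx, hxT, rfl⟩ := (hmem p).1 hpp
        obtain ⟨y, hy, hyT, rfl⟩ := (hmem q).1 hq
        rw [adj00 hx hy]
        exact hp.clique hxT hyT fun e => hpq (by subst e; rfl)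
      · intro p hpp
        obtain ⟨x, hx, hxT, rfl⟩ := (hmem p).1 hpp
        apply Subtype.ext
        show sw G v σ (ic0 x) = ic0 x
        rw [sw0, hp.fix x hxT, ic_eq G v (hnb x hxT hx)]
      · intro p hfix hpT
        have key : ∀ u, ∀ hu : u ≠ v, p = ⟨ic0 u, mem0 G v hu⟩ → ∃ t ∈ T', ¬ (DG G v).Adj p t := by
          rintro u hu rfl
          have h1 : sw G v σ (ic0 u) = ic0 u := congrArg Subtype.val hfix
          rw [sw0] at h1
          obtain ⟨h2, h3⟩ := ic_ne G v h1
          rw [h2] at h3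
          have huT : u ∉ T := fun h4 => hpT ((hmem _).2 ⟨u, hu, h4, rfl⟩)
          obtain ⟨t, ht, hut⟩ := hp.max u h2 huT
          have htv : t ≠ v := fun e => hut (e ▸ h3.symm)
          refine ⟨⟨ic0 t, mem0 G v htv⟩, (hmem _).2 ⟨t, htv, ht, rfl⟩, ?_⟩
          rw [adj00 hu htv]
          exact hut
        rcases dv_cases G v p with ⟨u, hu, hpu⟩ | ⟨u, hu, hpu⟩
        · exact key u hu hpu
        · have h1 : sw G v σ (ic1 G v u) = ic1 G v u := by
            have h2 := congrArg Subtype.val hfix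
            rw [hpu] at h2
            exact h2
          rw [sw1 hp.aut hσv] at h1
          obtain ⟨h2, h3⟩ := ic_ne G v h1.symm
          exact key u hu (hpu.trans (Subtype.ext (ic_eq G v h3)))
    have hcard : T'.card = m := by
      rw [hT', Finset.card_image_of_injOn, Finset.card_attach, Finset.card_erase_of_mem hv, hT]
      · rfl
      · intro x _ y _ hxy
        have h1 := congrArg Subtype.val hxy
        exact Subtype.ext (ic0.injective h1)
    obtain ⟨U, i1, i2, H, h1, h2, h3, h4⟩ := ih (j + 1) (DV G v) (DG G v) τ T' (hP j V G v h) hpar hcard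
    rw [add_right_comm, add_assoc] at h1
    have h5 := (Rel.double G v).trans h2
    rw [add_comm 1 m] at h5
    refine ⟨U, i1, i2, H, h1, h5, ?_, h4⟩
    have h6 : Fintype.card V ≤ Fintype.card (DV G v) + 1 := by
      have h7 : Fintype.card V ≤ Fintype.card (Option (DV G v)) := by
        refine Fintype.card_le_of_injective (fun u => if h : u = v then none else some (⟨ic0 u, mem0 G v h⟩ : DV G v)) ?_
        intro x y hxy
        beta_reduce at hxy
        split_ifs at hxy with h8 h9 h9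
        · rw [h8, h9]
        · rw [Option.some_inj] at hxy
          exact ic0.injective (congrArg Subtype.val hxy)
      rwa [Fintype.card_option] at h7
    omega

/-- iterated doubles with many vertices and with an involution without invariant faces -/
theorem family {P : ℕ → ∀ (V : Type) [Fintype V] [LinearOrder V], SimpleGraph V → Prop} (hP : Clo1 P) {j : ℕ}
    {V : Type} [Fintype V] [LinearOrder V] {G : SimpleGraph V} (h : P j V G) {a b c : V} (ht : Tri G a b c) (M : ℕ) :
    ∃ (k : ℕ) (U : Type) (_ : Fintype U) (_ : LinearOrder U) (H : SimpleGraph U), P (j + k) U H ∧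
      Rel k G H ∧ M ≤ Fintype.card U ∧ CSym H := by
  classical
  obtain ⟨U, i1, i2, H, h1, h2, h3⟩ := grow hP M j V G a b c h ht
  obtain ⟨T, hT⟩ : ∃ T : Finset U, H.IsClique (T : Set U) ∧ ∀ x, x ∉ T → ∃ t ∈ T, ¬ H.Adj x t := by
    obtain ⟨T, hT1, hT2⟩ := Finset.exists_max_image (Finset.univ.filter fun T : Finset U => H.IsClique (T : Set U))
      Finset.card ⟨∅, by simp⟩
    rw [Finset.mem_filter] at hT1
    refine ⟨T, hT1.2, fun x hx => ?_⟩
    by_contra hcon
    push Not at hcon
    have h4 := hT2 (insert x T) (by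
      rw [Finset.mem_filter]
      refine ⟨Finset.mem_univ _, ?_⟩
      rw [Finset.coe_insert, SimpleGraph.isClique_insert]
      exact ⟨hT1.2, fun b hb _ => hcon b hb⟩)
    rw [Finset.card_insert_of_notMem hx] at h4
    omega
  obtain ⟨U', i3, i4, H', h4, h5, h6, h7⟩ := sym hP T.card (j + M) U H id T h1
    ⟨fun _ => rfl, fun _ _ => Iff.rfl, fun x => H.loopless.irrefl x, hT.1, fun _ _ => rfl, fun x _ hx => hT.2 x hx⟩ rfl
  have hTc : T.card ≤ Fintype.card V := by
    obtain ⟨T', _, hT'⟩ := h2.cl T hT.1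
    rw [← hT']
    exact Finset.card_le_univ T'
  have hrel := h2.trans h5
  rw [add_assoc] at h4
  exact ⟨M + T.card, U', i3, i4, H', h4, hrel, by omega, h7⟩

theorem Rel.lower {k i : ℕ} {V U : Type} [Fintype V] [LinearOrder V] [Fintype U] [LinearOrder U]
    {G : SimpleGraph V} {H : SimpleGraph U} (hrel : Rel k G H) (hV : 0 < Fintype.card V) {c : ℝ} (hc : 0 < c)
    (h : ¬ Bd G i c) : ¬ Bd H i (c / Fintype.card V * Fintype.card U) := by
  intro hB
  apply h
  refine (hrel.bd i _ hB).mono ?_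
  have hV' : (0 : ℝ) < Fintype.card V := by exact_mod_cast hV
  have hle : (Fintype.card U : ℝ) ≤ 2 ^ k * Fintype.card V := by
    exact_mod_cast hrel.le
  rw [div_le_iff₀ (by positivity), div_mul_eq_mul_div, div_le_iff₀ hV']
  calc c * Fintype.card U ≤ c * (2 ^ k * Fintype.card V) := mul_le_mul_of_nonneg_left hle hc.le
    _ = _ := by ring

/-- **Main theorem.** -/
theorem reduction {P : ℕ → ∀ (V : Type) [Fintype V] [LinearOrder V], SimpleGraph V → Prop} (hP : Clo1 P) {i j : ℕ}
    (hi : 1 ≤ i) {V : Type} [Fintype V] [LinearOrder V] {G : SimpleGraph V} (h : P j V G) (hG : ¬ L2Van G i) :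
    ∃ c : ℝ, 0 < c ∧ ∀ M : ℕ, ∃ (k : ℕ) (U : Type) (_ : Fintype U) (_ : LinearOrder U) (H : SimpleGraph U),
      P (j + k) U H ∧ Rel k G H ∧ M ≤ Fintype.card U ∧ CSym H ∧ ¬ Bd H i (c * Fintype.card U) := by
  classical
  obtain ⟨c₀, hc₀, hbd⟩ : ∃ c : ℝ, 0 < c ∧ ¬ Bd G i c := by
    by_contra hcon
    push Not at hcon
    exact hG (l2_of_bd hcon)
  obtain ⟨a, b, c, ht⟩ := exists_tri hi hG
  have hV : 0 < Fintype.card V := Fintype.card_pos_iff.2 ⟨a⟩
  have hV' : (0 : ℝ) < Fintype.card V := by exact_mod_cast hV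
  refine ⟨c₀ / Fintype.card V, by positivity, fun M => ?_⟩
  obtain ⟨k, U, i1, i2, H, h1, h2, h3, h4⟩ := family hP h ht M
  exact ⟨k, U, i1, i2, H, h1, h2, h3, h4, h2.lower hV hc₀ hbd⟩

/-- from sets to subgroups -/
theorem sub_of_not_bd {V : Type} [Fintype V] [LinearOrder V] {G : SimpleGraph V} {i : ℕ} {c : ℝ}
    (h : ¬ Bd G i c) : ∃ E : Finset (W G), (1 : W G) ∉ E ∧ ∀ H : Subgroup (W G), H.FiniteIndex →
      (∀ g ∈ E, ∀ x : W G, x * g * x⁻¹ ∉ H) →
      c * H.index < Module.finrank ℝ (Pool.Agent.Y132.SI.HInv G H i) := by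
  classical
  unfold Bd at h
  push Not at h
  obtain ⟨E, h1, h2⟩ := h
  refine ⟨E, h1, fun H hfin hE => ?_⟩
  haveI : Finite (Quotient (QuotientGroup.rightRel H)) :=
    Finite.of_equiv _ (QuotientGroup.quotientRightRelEquivQuotientLeftRel H).symm
  letI : Fintype (Quotient (QuotientGroup.rightRel H)) := Fintype.ofFinite _
  have hcard : Fintype.card (Quotient (QuotientGroup.rightRel H)) = H.index := by
    rw [← Nat.card_eq_fintype_card, Nat.card_congr (QuotientGroup.quotientRightRelEquivQuotientLeftRel H)]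
    rfl
  have h4 := h2 (Quotient (QuotientGroup.rightRel H)) inferInstance ⟨Quotient.mk _ 1⟩
    ⟨Pool.Agent.Y132.SI.aa G H, Pool.Agent.Y132.SI.ev G H, Pool.Agent.Y132.SI.aa_inv G H,
      fun u v h x => Pool.Agent.Y132.SI.aa_comm G H u v h x, Pool.Agent.Y132.SI.ev_one G H,
      Pool.Agent.Y132.SI.ev_mul G H, fun _ _ => rfl⟩
    (fun g hg x => Pool.Agent.Y132.SI.ev_free G H (fun y => hE g hg y) x)
  rw [hcard] at h4
  rw [Pool.Agent.Y132.SI.finrank_HInv]
  exact h4

end Pool.Agent.Run7.h606.DB
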