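import Pool.Agent.R580.CD.Dbl
import Pool.Agent.W907.SG.All

/-!
# Betti numbers of the double of a nerve

`dbl G v` (on `hA v ∪ hB G v`) is the graph of two copies of `G - v`, glued along the link of `v`: the nerve of the
subgroup of index two of `W G` generated by the `u` and the `v u v`, `u ≠ v`. If it acts on the set `X` then `W G`
acts on `X × Bool` (`ind`), and the Betti numbers of this `W G`-set are at most the ones of `X`.
-/

set_option autoImplicit false
set_option linter.unusedSectionVars false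

namespace Pool.Agent.Run7.h606.DB

open Finset Module Pool.Agent.W907.SG Pool.Agent.R580.CD
open Pool.Agent.W347.SGV (lift)

section Push

variable {V W : Type} [Fintype V] [LinearOrder V] [Fintype W] [LinearOrder W]
variable {F M : Type} [Field F] [AddCommGroup M] [Module F M]

open Classical in
/-- the pushforward of the chains on subsets of `A` -/
noncomputable def push (f : V ↪ W) (A : Set V) (d : Finset V → M) : Finset W → M := fun T =>
  if (T : Set W) ⊆ f '' A then d (T.preimage f f.injective.injOn) else 0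

omit [Fintype V] [LinearOrder V] [Fintype W] [LinearOrder W] in
theorem pre_map (f : V ↪ W) (R : Finset V) : (R.map f).preimage f f.injective.injOn = R := by
  ext v
  rw [Finset.mem_preimage, Finset.mem_map']

omit [Fintype V] [LinearOrder V] [Fintype W] [LinearOrder W] in
theorem map_subset (f : V ↪ W) {A : Set V} {R : Finset V} : ((R.map f : Finset W) : Set W) ⊆ f '' A ↔ (R : Set V) ⊆ A := by
  rw [Finset.coe_map]
  exact Set.image_subset_image_iff f.injective

omit [Fintype V] [LinearOrder V] [Fintype W] [LinearOrder W] in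
theorem push_map (f : V ↪ W) {A : Set V} (d : Finset V → M) {R : Finset V} (h : (R : Set V) ⊆ A) :
    push f A d (R.map f) = d R := by
  rw [push, if_pos ((map_subset f).2 h), pre_map]

omit [Fintype V] [LinearOrder V] [Fintype W] [LinearOrder W] in
theorem push_not (f : V ↪ W) {A : Set V} (d : Finset V → M) {T : Finset W} (h : ¬ (T : Set W) ⊆ f '' A) :
    push f A d T = 0 := by
  rw [push, if_neg h]

omit [Fintype V] [LinearOrder V] [Fintype W] [LinearOrder W] in
theorem push_add (f : V ↪ W) (A : Set V) (d e : Finset V → M) : push f A (d + e) = push f A d + push f A e := by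
  classical
  funext T
  rw [Pi.add_apply, push, push, push]
  split_ifs
  · rfl
  · rw [add_zero]

omit [Fintype V] [LinearOrder V] [Fintype W] [LinearOrder W] in
theorem push_smul (f : V ↪ W) (A : Set V) (r : F) (d : Finset V → M) : push f A (r • d) = r • push f A d := by
  classical
  funext T
  rw [Pi.smul_apply, push, push]
  split_ifs
  · rfl
  · rw [smul_zero]

theorem bd_push_not (f : V ↪ W) {A : Set V} (d : Finset V → M) {T : Finset W} (h : ¬ (T : Set W) ⊆ f '' A) :
    bd F (push f A d) T = 0 := by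
  rw [bd_apply]
  refine Finset.sum_eq_zero fun w _ => ?_
  rw [push_not, smul_zero]
  intro h1
  exact h fun x hx => h1 (by rw [Finset.coe_insert]; exact Set.mem_insert_of_mem _ hx)

open Classical in
theorem bd_push (f : V ↪ W) (hf : StrictMono f) {A : Set V} (d : Finset V → M) {R : Finset V}
    (h : (R : Set V) ⊆ A) :
    bd F (push f A d) (R.map f) = ∑ w ∈ Rᶜ, if w ∈ A then sg w R • d (insert w R) else 0 := by
  rw [bd_apply]
  have h1 : (Rᶜ.map f) ⊆ (R.map f)ᶜ := by
    intro w hw
    rw [mem_map] at hw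
    obtain ⟨v, hv, rfl⟩ := hw
    rw [mem_compl] at hv ⊢
    intro h2
    exact hv ((Finset.mem_map' f).mp h2)
  rw [← Finset.sum_subset h1]
  · rw [Finset.sum_map]
    refine Finset.sum_congr rfl fun v _ => ?_
    rw [sg_map f hf, ← Finset.map_insert]
    split_ifs with hv
    · rw [push_map]
      rw [Finset.coe_insert]
      exact Set.insert_subset hv h
    · rw [push_not, smul_zero]
      intro h2
      rw [map_subset, Finset.coe_insert] at h2
      exact hv (h2 (Set.mem_insert _ _))
  · intro w hw hw2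
    rw [push_not, smul_zero]
    intro h3
    obtain ⟨v, _, rfl⟩ := h3 (show w ∈ _ by simp)
    apply hw2
    rw [Finset.mem_map']
    rw [mem_compl] at hw ⊢
    intro h4
    exact hw ((Finset.mem_map' f).mpr h4)

end Push

section Double

variable {V : Type} [Fintype V] [LinearOrder V] {F X : Type} [Field F]

/-- the induced action -/
noncomputable def ind (G : SimpleGraph V) (v : V) (a : V ×ₗ Bool → X → X) (u : V) (x : X × Bool) : X × Bool :=
  open Classical in if u = v then (x.1, !x.2) else (a (if x.2 then ic1 G v u else ic0 u) x.1, x.2)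

theorem ind_v (G : SimpleGraph V) (v : V) (a : V ×ₗ Bool → X → X) (x : X × Bool) :
    ind G v a v x = (x.1, !x.2) := if_pos rfl

theorem ind_ne (G : SimpleGraph V) {v : V} (a : V ×ₗ Bool → X → X) {u : V} (h : u ≠ v) (x : X × Bool) :
    ind G v a u x = (a (if x.2 then ic1 G v u else ic0 u) x.1, x.2) := if_neg h

/-- the components of a chain -/
def cm (b : Bool) (c : Finset V → (X × Bool → F)) : Finset V → (X → F) := fun T x => c T (x, b)

variable (F) in
/-- the chain map -/
noncomputable def pr (G : SimpleGraph V) (v : V) :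
    (Finset V → (X × Bool → F)) →ₗ[F] (Finset (V ×ₗ Bool) → (X → F)) where
  toFun c := push ic0 {v}ᶜ (cm false c) + push (ic1 G v) {v}ᶜ (cm true c)
  map_add' c d := by
    have h : ∀ b, cm b (c + d) = cm b c + cm b d := fun b => rfl
    rw [h, h, push_add, push_add]
    abel
  map_smul' r c := by
    have h : ∀ b, cm b (r • c) = r • cm b c := fun b => rfl
    rw [h, h, push_smul, push_smul, RingHom.id_apply, smul_add]

theorem pr_apply (G : SimpleGraph V) (v : V) (c : Finset V → (X × Bool → F)) :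
    pr F G v c = push ic0 {v}ᶜ (cm false c) + push (ic1 G v) {v}ᶜ (cm true c) := rfl

variable {G : SimpleGraph V} {v : V} {a : V ×ₗ Bool → X → X} {i : ℕ}

/-- a set in the second half which is contained in the first half lies in the link -/
theorem nb_of_sub {R : Finset V} (h : ((R.map (ic1 G v) : Finset (V ×ₗ Bool)) : Set (V ×ₗ Bool)) ⊆ hA v) :
    (R : Set V) ⊆ G.neighborSet v := by
  intro t ht
  obtain ⟨y, _, hy⟩ := h (show ic1 G v t ∈ _ by rw [Finset.mem_coe, Finset.mem_map']; exact ht)
  exact (ic_ne G v hy.symm).2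

theorem map_eq {R : Finset V} (h : (R : Set V) ⊆ G.neighborSet v) : R.map (ic1 G v) = R.map ic0 := by
  ext p
  simp only [mem_map]
  constructor
  · rintro ⟨t, ht, rfl⟩
    exact ⟨t, ht, (ic_eq G v (h ht)).symm⟩
  · rintro ⟨t, ht, rfl⟩
    exact ⟨t, ht, ic_eq G v (h ht)⟩

theorem map_inj_nb {R R' : Finset V} (h : R.map (ic1 G v) = R'.map ic0) : R = R' ∧ (R : Set V) ⊆ G.neighborSet v := by
  have h1 : (R : Set V) ⊆ G.neighborSet v := by
    intro t ht
    have h2 : ic1 G v t ∈ R'.map ic0 := h ▸ (Finset.mem_map' _).2 ht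
    obtain ⟨y, _, hy⟩ := mem_map.1 h2
    exact (ic_ne G v hy.symm).2
  refine ⟨?_, h1⟩
  rw [map_eq h1] at h
  exact Finset.map_injective _ h

theorem not_v {R : Finset V} (h : (R : Set V) ⊆ ({v}ᶜ : Set V)) : v ∉ R := fun h1 => h h1 rfl

theorem sub_compl {R : Finset V} (h : v ∉ R) : (R : Set V) ⊆ ({v}ᶜ : Set V) := by
  intro t ht e
  exact h (by rw [← show t = v from e]; exact ht)

/-- the chains with a vertex `v` -/
theorem v_anti {c : Finset V → (X × Bool → F)} (hc : c ∈ KK G (pull F (ind G v a)) Set.univ ∅ i) (R : Finset V)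
    (x : X) : c (insert v R) (x, false) + c (insert v R) (x, true) = 0 := by
  have h1 := congrFun ((mem_KK.1 hc).2 (insert v R) v (Or.inl (mem_insert_self v R))) (x, false)
  rw [pull_apply, ind_v] at h1
  simp only [Bool.not_false, Pi.neg_apply] at h1
  rw [h1]; ring

theorem v_nb {c : Finset V → (X × Bool → F)} (hc : c ∈ KK G (pull F (ind G v a)) Set.univ ∅ i) {R : Finset V}
    (hv : v ∉ R) (h : c (insert v R) ≠ 0) : (R : Set V) ⊆ G.neighborSet v := by
  have h1 : G.IsClique ((insert v R : Finset V) : Set V) := by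
    by_contra h2
    exact h ((mem_KK.1 hc).1 _ fun h3 => h2 h3.1)
  rw [Finset.coe_insert, SimpleGraph.isClique_insert_of_notMem (by simpa using hv)] at h1
  exact fun t ht => h1.2 t ht

theorem bd_cm (b : Bool) (c : Finset V → (X × Bool → F)) : cm b (bd F c) = bd F (cm b c) := by
  funext T x
  simp only [cm, bd_apply, Finset.sum_apply, Pi.smul_apply]

/-- the boundary of the pushforward of a component -/
theorem bd_push_cm (f : V ↪ V ×ₗ Bool) (hf : StrictMono f) (b : Bool) (c : Finset V → (X × Bool → F)) {R : Finset V}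
    (hR : v ∉ R) : bd F (push f {v}ᶜ (cm b c)) (R.map f) = cm b (bd F c) R - sg v R • cm b c (insert v R) := by
  classical
  rw [bd_push f hf _ (sub_compl hR), bd_cm, bd_apply]
  have hv : v ∈ Rᶜ := mem_compl.2 hR
  rw [← Finset.add_sum_erase _ _ hv, ← Finset.add_sum_erase Rᶜ (fun w => sg w R • cm b c (insert w R)) hv]
  rw [if_neg (by simp), zero_add, add_sub_cancel_left]
  refine Finset.sum_congr rfl fun w hw => ?_
  rw [if_pos]
  exact ne_of_mem_erase hw

/-- `pr` is a chain map -/
theorem pr_bd {c : Finset V → (X × Bool → F)} (hc : c ∈ KK G (pull F (ind G v a)) Set.univ ∅ i) :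
    bd F (pr F G v c) = pr F G v (bd F c) := by
  rw [pr_apply, pr_apply, map_add]
  funext T
  rw [Pi.add_apply, Pi.add_apply]
  have h0 : ∀ R : Finset V, v ∉ R → bd F (push ic0 {v}ᶜ (cm false c)) (R.map ic0) =
      push ic0 {v}ᶜ (cm false (bd F c)) (R.map ic0) - sg v R • cm false c (insert v R) := by
    intro R hR
    rw [bd_push_cm ic0 ic0_mono false c hR, push_map ic0 _ (sub_compl hR)]
  have h1 : ∀ R : Finset V, v ∉ R → bd F (push (ic1 G v) {v}ᶜ (cm true c)) (R.map (ic1 G v)) =
      push (ic1 G v) {v}ᶜ (cm true (bd F c)) (R.map (ic1 G v)) - sg v R • cm true c (insert v R) := by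
    intro R hR
    rw [bd_push_cm (ic1 G v) (ic1_mono G v) true c hR, push_map (ic1 G v) _ (sub_compl hR)]
  by_cases hT0 : (T : Set (V ×ₗ Bool)) ⊆ ic0 '' ({v}ᶜ : Set V)
  · obtain ⟨R, rfl, hR⟩ := exists_map ic0 hT0
    rw [h0 R (not_v hR)]
    by_cases hT1 : ((R.map ic0 : Finset (V ×ₗ Bool)) : Set (V ×ₗ Bool)) ⊆ (ic1 G v) '' ({v}ᶜ : Set V)
    · obtain ⟨R', hR', hR'v⟩ := exists_map (ic1 G v) hT1
      obtain ⟨rfl, hnb⟩ := map_inj_nb hR'
      rw [← hR', h1 R' (not_v hR), hR']
      have h2 : cm false c (insert v R') + cm true c (insert v R') = 0 := by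
        funext x
        exact v_anti hc R' x
      have h3 : cm true c (insert v R') = - cm false c (insert v R') := by
        rw [← sub_eq_zero, sub_neg_eq_add, add_comm, h2]
      rw [h3, smul_neg]
      abel
    · rw [bd_push_not (ic1 G v) _ hT1, push_not (ic1 G v) _ hT1]
      have h2 : c (insert v R) = 0 := by
        by_contra h3
        have h4 := v_nb hc (not_v hR) h3
        apply hT1
        rw [← map_eq h4, map_subset]
        exact hR
      have h3 : cm false c (insert v R) = 0 := by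
        funext x
        show c (insert v R) (x, false) = 0
        rw [h2]; rfl
      rw [h3, smul_zero, sub_zero]
  · rw [bd_push_not ic0 _ hT0, push_not ic0 _ hT0, zero_add, zero_add]
    by_cases hT1 : (T : Set (V ×ₗ Bool)) ⊆ (ic1 G v) '' ({v}ᶜ : Set V)
    · obtain ⟨R, rfl, hR⟩ := exists_map (ic1 G v) hT1
      rw [h1 R (not_v hR)]
      have h2 : c (insert v R) = 0 := by
        by_contra h3
        have h4 := v_nb hc (not_v hR) h3
        apply hT0
        rw [map_eq h4, map_subset]
        exact hR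
      have h3 : cm true c (insert v R) = 0 := by
        funext x
        show c (insert v R) (x, true) = 0
        rw [h2]; rfl
      rw [h3, smul_zero, sub_zero]
    · rw [bd_push_not (ic1 G v) _ hT1, push_not (ic1 G v) _ hT1]

/-- the cliques of the double -/
theorem clique0 {R : Finset V} (h : v ∉ R) : (dbl G v).IsClique ((R.map ic0 : Finset (V ×ₗ Bool)) : Set (V ×ₗ Bool)) ↔
    G.IsClique (R : Set V) := by
  constructor
  · intro h1 x hx y hy hxy
    have h2 := h1 (show ic0 x ∈ _ by rw [Finset.mem_coe, Finset.mem_map']; exact hx)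
      (show ic0 y ∈ _ by rw [Finset.mem_coe, Finset.mem_map']; exact hy) (fun e => hxy (ic0.injective e))
    exact ((dbl_adj0 G v x (sub_compl h hx) y (sub_compl h hy))).2 h2
  · intro h1 p hp q hq hpq
    obtain ⟨x, hx, rfl⟩ := mem_map.1 (mem_coe.1 hp)
    obtain ⟨y, hy, rfl⟩ := mem_map.1 (mem_coe.1 hq)
    exact ((dbl_adj0 G v x (sub_compl h hx) y (sub_compl h hy))).1 (h1 hx hy fun e => hpq (by rw [e]))

theorem clique1 {R : Finset V} (h : v ∉ R) :
    (dbl G v).IsClique ((R.map (ic1 G v) : Finset (V ×ₗ Bool)) : Set (V ×ₗ Bool)) ↔ G.IsClique (R : Set V) := by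
  constructor
  · intro h1 x hx y hy hxy
    have h2 := h1 (show ic1 G v x ∈ _ by rw [Finset.mem_coe, Finset.mem_map']; exact hx)
      (show ic1 G v y ∈ _ by rw [Finset.mem_coe, Finset.mem_map']; exact hy) (fun e => hxy ((ic1 G v).injective e))
    exact ((dbl_adj1 G v x (sub_compl h hx) y (sub_compl h hy))).2 h2
  · intro h1 p hp q hq hpq
    obtain ⟨x, hx, rfl⟩ := mem_map.1 (mem_coe.1 hp)
    obtain ⟨y, hy, rfl⟩ := mem_map.1 (mem_coe.1 hq)
    exact ((dbl_adj1 G v x (sub_compl h hx) y (sub_compl h hy))).1 (h1 hx hy fun e => hpq (by rw [e]))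

/-- a clique lies in one of the halves -/
theorem clique_half {T : Finset (V ×ₗ Bool)} (h1 : (dbl G v).IsClique (T : Set (V ×ₗ Bool)))
    (h2 : (T : Set (V ×ₗ Bool)) ⊆ hA v ∪ hB G v) :
    (T : Set (V ×ₗ Bool)) ⊆ hA v ∨ (T : Set (V ×ₗ Bool)) ⊆ hB G v := by
  by_contra h
  rw [not_or, Set.not_subset, Set.not_subset] at h
  obtain ⟨⟨p, hp, hpA⟩, ⟨q, hq, hqB⟩⟩ := h
  have hpB : p ∈ hB G v := (h2 hp).resolve_left hpA
  have hpq : p ≠ q := fun e => hqB (e ▸ hpB)
  obtain ⟨_, h3 | h3⟩ := h1 hp hq hpq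
  · exact hpA h3.1
  · exact hqB h3.2

theorem pull_push (f : V ↪ V ×ₗ Bool) (b : Bool) (hf : ∀ t : V, (if b then ic1 G v t else ic0 t) = f t)
    {c : Finset V → (X × Bool → F)} (hc : c ∈ KK G (pull F (ind G v a)) Set.univ ∅ i) (T : Finset (V ×ₗ Bool))
    (t : V ×ₗ Bool) (ht : t ∈ T) : pull F a t (push f {v}ᶜ (cm b c) T) = - push f {v}ᶜ (cm b c) T := by
  by_cases hT : (T : Set (V ×ₗ Bool)) ⊆ f '' ({v}ᶜ : Set V)
  · obtain ⟨R, rfl, hR⟩ := exists_map f hT
    rw [push_map f _ hR]
    obtain ⟨u, hu, rfl⟩ := mem_map.1 ht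
    have huv : u ≠ v := hR hu
    funext x
    have h1 := congrFun ((mem_KK.1 hc).2 R u (Or.inl hu)) (x, b)
    rw [pull_apply, ind_ne G a huv] at h1
    dsimp only at h1
    rw [hf u] at h1
    rw [pull_apply]
    exact h1
  · rw [push_not f _ hT, map_zero, neg_zero]

/-- `pr` maps chains to chains -/
theorem pr_mem {c : Finset V → (X × Bool → F)} (hc : c ∈ KK G (pull F (ind G v a)) Set.univ ∅ i) :
    pr F G v c ∈ KK (dbl G v) (pull F a) (hA v ∪ hB G v) ∅ i := by
  rw [mem_KK]
  refine ⟨fun T hT => ?_, fun T t ht => ?_⟩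
  · rw [pr_apply, Pi.add_apply]
    have e0 : push ic0 {v}ᶜ (cm false c) T = 0 := by
      by_cases hT0 : (T : Set (V ×ₗ Bool)) ⊆ ic0 '' ({v}ᶜ : Set V)
      · obtain ⟨R, rfl, hR⟩ := exists_map ic0 hT0
        rw [push_map ic0 _ hR]
        funext x
        show c R (x, false) = 0
        rw [(mem_KK.1 hc).1 R]
        · rfl
        · rintro ⟨h1, _, h3⟩
          exact hT ⟨(clique0 (not_v hR)).2 h1, fun p hp => Or.inl (hT0 hp), by rw [card_map, h3]⟩
      · exact push_not ic0 _ hT0
    have e1 : push (ic1 G v) {v}ᶜ (cm true c) T = 0 := by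
      by_cases hT0 : (T : Set (V ×ₗ Bool)) ⊆ ic1 G v '' ({v}ᶜ : Set V)
      · obtain ⟨R, rfl, hR⟩ := exists_map (ic1 G v) hT0
        rw [push_map (ic1 G v) _ hR]
        funext x
        show c R (x, true) = 0
        rw [(mem_KK.1 hc).1 R]
        · rfl
        · rintro ⟨h1, _, h3⟩
          exact hT ⟨(clique1 (not_v hR)).2 h1, fun p hp => Or.inr (hT0 hp), by rw [card_map, h3]⟩
      · exact push_not (ic1 G v) _ hT0
    rw [e0, e1, add_zero]
  · have ht : t ∈ T := ht.resolve_right (Set.notMem_empty t)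
    rw [pr_apply, Pi.add_apply, map_add, pull_push ic0 false (fun t => rfl) hc T t ht,
      pull_push (ic1 G v) true (fun t => rfl) hc T t ht, neg_add]

/-- the section -/
noncomputable def sec (G : SimpleGraph V) (v : V) (y : Finset (V ×ₗ Bool) → (X → F)) :
    Finset V → (X × Bool → F) := fun T x =>
  open Classical in if v ∈ T then 0 else if x.2 then (if (T : Set V) ⊆ G.neighborSet v then 0 else
    y (T.map (ic1 G v)) x.1) else y (T.map ic0) x.1

theorem sec_mem {y : Finset (V ×ₗ Bool) → (X → F)}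
    (hy : y ∈ KK (dbl G v) (pull F a) (hA v ∪ hB G v) ∅ i) :
    sec G v y ∈ KK G (pull F (ind G v a)) Set.univ ∅ i := by
  classical
  rw [mem_KK] at hy ⊢
  refine ⟨fun T hT => ?_, fun T t ht => ?_⟩
  · funext x
    rw [sec]
    split_ifs with h1 h2 h3
    · rfl
    · rfl
    · rw [hy.1]
      · rfl
      · rintro ⟨h4, _, h5⟩
        rw [clique1 h1] at h4
        exact hT ⟨h4, Set.subset_univ _, by rw [← h5, card_map]⟩
    · rw [hy.1]
      · rfl
      · rintro ⟨h4, _, h5⟩
        rw [clique0 h1] at h4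
        exact hT ⟨h4, Set.subset_univ _, by rw [← h5, card_map]⟩
  · have ht : t ∈ T := ht.resolve_right (Set.notMem_empty t)
    funext x
    rw [pull_apply]
    by_cases hv : v ∈ T
    · simp [sec, hv]
    · have htv : t ≠ v := fun e => hv (e ▸ ht)
      rw [ind_ne G a htv, Pi.neg_apply]
      obtain ⟨x, b⟩ := x
      cases b
      · simp only [sec, if_neg hv, Bool.false_eq_true, if_false]
        have h1 := congrFun (hy.2 (T.map ic0) (ic0 t) (Or.inl ((mem_map' _).2 ht))) x
        rw [pull_apply] at h1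
        exact h1
      · simp only [sec, if_neg hv, if_true]
        split_ifs with h2
        · rw [neg_zero]
        · have h1 := congrFun (hy.2 (T.map (ic1 G v)) (ic1 G v t) (Or.inl ((mem_map' _).2 ht))) x
          rw [pull_apply] at h1
          exact h1

theorem pr_sec {y : Finset (V ×ₗ Bool) → (X → F)}
    (hy : y ∈ KK (dbl G v) (pull F a) (hA v ∪ hB G v) ∅ i) : pr F G v (sec G v y) = y := by
  classical
  rw [mem_KK] at hy
  have f0 : ∀ R : Finset V, (R : Set V) ⊆ ({v}ᶜ : Set V) → cm false (sec G v y) R = y (R.map ic0) := by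
    intro R hR
    funext x
    simp only [cm, sec, if_neg (not_v hR), Bool.false_eq_true, if_false]
  have f1 : ∀ R : Finset V, (R : Set V) ⊆ ({v}ᶜ : Set V) → (R : Set V) ⊆ G.neighborSet v →
      cm true (sec G v y) R = 0 := by
    intro R hR hn
    funext x
    simp only [cm, sec, if_neg (not_v hR), if_true, if_pos hn, Pi.zero_apply]
  have f2 : ∀ R : Finset V, (R : Set V) ⊆ ({v}ᶜ : Set V) → ¬ (R : Set V) ⊆ G.neighborSet v →
      cm true (sec G v y) R = y (R.map (ic1 G v)) := by
    intro R hR hn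
    funext x
    simp only [cm, sec, if_neg (not_v hR), if_true, if_neg hn]
  rw [pr_apply]
  funext T
  rw [Pi.add_apply]
  by_cases hT0 : (T : Set (V ×ₗ Bool)) ⊆ ic0 '' ({v}ᶜ : Set V)
  · obtain ⟨R, rfl, hR⟩ := exists_map ic0 hT0
    rw [push_map ic0 _ hR, f0 R hR]
    by_cases hT1 : ((R.map ic0 : Finset (V ×ₗ Bool)) : Set (V ×ₗ Bool)) ⊆ (ic1 G v) '' ({v}ᶜ : Set V)
    · obtain ⟨R', hR', hR'v⟩ := exists_map (ic1 G v) hT1
      obtain ⟨rfl, hnb⟩ := map_inj_nb hR'
      rw [← hR', push_map (ic1 G v) _ hR'v, f1 R' hR'v hnb, add_zero]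
    · rw [push_not (ic1 G v) _ hT1, add_zero]
  · rw [push_not ic0 _ hT0, zero_add]
    by_cases hT1 : (T : Set (V ×ₗ Bool)) ⊆ (ic1 G v) '' ({v}ᶜ : Set V)
    · obtain ⟨R, rfl, hR⟩ := exists_map (ic1 G v) hT1
      rw [push_map (ic1 G v) _ hR, f2 R hR]
      intro hn
      apply hT0
      rw [map_eq hn, map_subset]
      exact hR
    · rw [push_not (ic1 G v) _ hT1, hy.1]
      rintro ⟨h1, h2, _⟩
      rcases clique_half h1 h2 with h3 | h3
      · exact hT0 h3
      · exact hT1 h3

/-- the kernel of `pr` is acyclic -/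
theorem ker_acyclic {z : Finset V → (X × Bool → F)} (hz : z ∈ KK G (pull F (ind G v a)) Set.univ ∅ i)
    (hb : bd F z = 0) (hp : pr F G v z = 0) :
    ∃ k ∈ KK G (pull F (ind G v a)) Set.univ ∅ (i + 1), bd F k = z ∧ pr F G v k = 0 := by
  classical
  -- the components vanish off the link, and are opposite on the link
  have h1 : ∀ R : Finset V, v ∉ R → ¬ (R : Set V) ⊆ G.neighborSet v → z R = 0 := by
    intro R hR hn
    have hRs := sub_compl hR
    funext ⟨x, b⟩
    cases b
    · have h2 := congrFun (congrFun hp (R.map ic0)) x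
      rw [pr_apply, Pi.add_apply, push_map ic0 _ hRs, push_not] at h2
      · rw [add_zero] at h2
        exact h2
      · intro h3
        obtain ⟨R', hR', hR'v⟩ := exists_map (ic1 G v) h3
        obtain ⟨rfl, hnb⟩ := map_inj_nb hR'
        exact hn hnb
    · have h2 := congrFun (congrFun hp (R.map (ic1 G v))) x
      rw [pr_apply, Pi.add_apply, push_map (ic1 G v) _ hRs, push_not] at h2
      · rw [zero_add] at h2
        exact h2
      · intro h3
        exact hn (nb_of_sub h3)
  have h2 : ∀ R : Finset V, v ∉ R → ∀ x, z R (x, false) + z R (x, true) = 0 := by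
    intro R hR x
    by_cases hn : (R : Set V) ⊆ G.neighborSet v
    · have hRs := sub_compl hR
      have h3 := congrFun (congrFun hp (R.map ic0)) x
      have h4 : push (ic1 G v) {v}ᶜ (cm true z) (R.map ic0) = cm true z R := by
        rw [← map_eq hn, push_map (ic1 G v) _ hRs]
      rw [pr_apply, Pi.add_apply, push_map ic0 _ hRs, h4] at h3
      exact h3
    · rw [h1 R hR hn]
      simp
  set d : Finset V → (X × Bool → F) := fun T => if v ∈ T then 0 else z T with hd
  have hdm : d ∈ KK G (pull F (ind G v a)) (Set.univ ∩ G.neighborSet v) (insert v ∅) i := by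
    rw [mem_KK] at hz ⊢
    refine ⟨fun T hT => ?_, fun T t ht => ?_⟩
    · simp only [hd]
      split_ifs with hv
      · rfl
      · by_cases hn : (T : Set V) ⊆ G.neighborSet v
        · refine hz.1 T ?_
          rintro ⟨h3, _, h5⟩
          exact hT ⟨h3, fun x hx => ⟨trivial, hn hx⟩, h5⟩
        · exact h1 T hv hn
    · simp only [hd]
      split_ifs with hv
      · rw [map_zero, neg_zero]
      · rcases ht with ht | ht | ht
        · exact hz.2 T t (Or.inl ht)
        · rw [ht]
          funext ⟨x, b⟩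
          rw [pull_apply, ind_v, Pi.neg_apply]
          have h3 := h2 T hv x
          cases b
          · simp only [Bool.not_false]
            linear_combination h3
          · simp only [Bool.not_true]
            linear_combination h3
        · exact absurd ht (Set.notMem_empty t)
  have hl := Pool.Agent.W347.SGV.lift_mem hdm
  rw [Set.insert_eq_of_mem (Set.mem_univ v)] at hl
  have hpush : ∀ (f : V ↪ V ×ₗ Bool) (b : Bool), push f {v}ᶜ (cm b (lift v d)) = 0 := by
    intro f b
    funext T
    by_cases hT : (T : Set (V ×ₗ Bool)) ⊆ f '' ({v}ᶜ : Set V)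
    · obtain ⟨R, rfl, hR⟩ := exists_map f hT
      rw [push_map f _ hR]
      funext x
      show lift v d R (x, b) = 0
      rw [lift, if_neg (not_v hR)]
      rfl
    · rw [push_not f _ hT]
      rfl
  refine ⟨lift v d, hl, ?_, by rw [pr_apply, hpush, hpush, add_zero]⟩
  funext T
  rw [bd_apply]
  by_cases hv : v ∈ T
  · -- `T` contains `v`
    have hvT := Finset.insert_erase hv
    have hve : v ∉ T.erase v := Finset.notMem_erase v T
    have h3 : ∀ w ∈ Tᶜ, sg w T • lift v d (insert w T) =
        - (sg v (T.erase v) • (sg w (T.erase v) • z (insert w (T.erase v)))) := by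
      intro w hw
      rw [mem_compl] at hw
      have hwv : w ≠ v := fun e => hw (e ▸ hv)
      have hwe : w ∉ T.erase v := fun h => hw (Finset.mem_of_mem_erase h)
      have e1 : (insert w T).erase v = insert w (T.erase v) := Finset.erase_insert_of_ne hwv
      rw [lift, if_pos (Finset.mem_insert_of_mem hv), e1]
      have e2 : d (insert w (T.erase v)) = z (insert w (T.erase v)) := by
        simp only [hd]
        rw [if_neg]
        rw [mem_insert, not_or]
        exact ⟨hwv.symm, hve⟩
      rw [e2]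
      have e3 := sg_swap w v (T.erase v) hwv hwe hve
      rw [hvT] at e3
      rw [smul_smul, smul_smul, ← neg_smul]
      congr 1
      rcases sg_eq_or v (T.erase v) with h4 | h4 <;> rcases sg_eq_or v (insert w (T.erase v)) with h5 | h5 <;>
        rcases sg_eq_or w (T.erase v) with h6 | h6 <;> rw [h4, h5, h6] at e3 <;> rw [h4, h5, h6] <;> linarith
    rw [Finset.sum_congr rfl h3, Finset.sum_neg_distrib, ← Finset.smul_sum]
    have h4 : ∑ w ∈ Tᶜ, sg w (T.erase v) • z (insert w (T.erase v)) = - (sg v (T.erase v) • z T) := by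
      have h5 := congrFun hb (T.erase v)
      rw [bd_apply] at h5
      have h6 : (T.erase v)ᶜ = insert v Tᶜ := by
        ext w
        simp only [mem_compl, mem_erase, mem_insert, not_and_or, not_not]
      rw [h6, Finset.sum_insert (by simpa using hv), hvT] at h5
      exact eq_neg_of_add_eq_zero_right h5
    rw [h4, smul_neg, neg_neg, smul_smul]
    rcases sg_eq_or v (T.erase v) with h5 | h5 <;> rw [h5] <;> simp
  · rw [Finset.sum_eq_single_of_mem v (mem_compl.2 hv)]
    · rw [lift, if_pos (Finset.mem_insert_self v T), Finset.erase_insert hv]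
      have e2 : d T = z T := by simp only [hd]; rw [if_neg hv]
      rw [e2, smul_smul]
      rcases sg_eq_or v T with h5 | h5 <;> rw [h5] <;> simp
    · intro w _ hwv
      rw [lift, if_neg, smul_zero]
      rw [mem_insert, not_or]
      exact ⟨hwv.symm, hv⟩

/-- the Betti numbers of the induced set are at most the Betti numbers over the double -/
theorem beta_ind_le [Fintype X] (G : SimpleGraph V) (v : V) (a : V ×ₗ Bool → X → X) (i : ℕ) :
    beta G (pull F (ind G v a)) Set.univ ∅ i ≤ beta (dbl G v) (pull F a) (hA v ∪ hB G v) ∅ i := by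
  have h := mid F F (Finset V → (X × Bool → F)) (Finset (V ×ₗ Bool) → (X → F)) 0 (pr F G v) ⊥ ⊥
    (BB G (pull F (ind G v a)) Set.univ ∅ i) (ZZ G (pull F (ind G v a)) Set.univ ∅ i)
    (BB (dbl G v) (pull F a) (hA v ∪ hB G v) ∅ i) (ZZ (dbl G v) (pull F a) (hA v ∪ hB G v) ∅ i)
    le_rfl (BB_le_ZZ _ _ _ _ _) (BB_le_ZZ _ _ _ _ _) (by rw [Submodule.map_zero]; exact bot_le) ?_ ?_
  · rw [finrank_bot, Nat.sub_zero, zero_add] at h
    exact h
  · rintro _ ⟨z, ⟨hz, hz0⟩, rfl⟩
    refine ⟨pr_mem hz, ?_⟩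
    have hz0 : bd F z = 0 := hz0
    show bd F (pr F G v z) = 0
    rw [pr_bd hz, hz0, map_zero]
  · rintro z ⟨hz, hz0⟩ ⟨y, hy, hyz⟩
    have hz0 : bd F z = 0 := hz0
    have hs := sec_mem hy
    have hs2 := pr_sec hy
    have h1 : z - bd F (sec G v y) ∈ KK G (pull F (ind G v a)) Set.univ ∅ i := Submodule.sub_mem _ hz (bd_mem_KK hs)
    obtain ⟨k, hk, hk2, _⟩ := ker_acyclic h1 (by rw [map_sub, hz0, bd_bd, sub_zero])
      (by rw [map_sub, ← pr_bd hs, hs2, hyz, sub_self])
    refine ⟨0, Submodule.zero_mem _, bd F (sec G v y + k), ⟨_, Submodule.add_mem _ hs hk, rfl⟩, ?_⟩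
    rw [LinearMap.zero_apply, zero_add, map_add, hk2]
    abel

/-- every cycle over the double comes from a cycle -/
theorem exists_cycle {y : Finset (V ×ₗ Bool) → (X → F)} (hy : y ∈ KK (dbl G v) (pull F a) (hA v ∪ hB G v) ∅ i)
    (hb : bd F y = 0) : ∃ z ∈ KK G (pull F (ind G v a)) Set.univ ∅ i, bd F z = 0 ∧ pr F G v z = y := by
  have hs := sec_mem hy
  have hs2 := pr_sec hy
  cases i with
  | zero =>
    refine ⟨sec G v y, hs, ?_, hs2⟩
    funext T
    rw [bd_apply]
    refine Finset.sum_eq_zero fun w hw => ?_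
    rw [(mem_KK.1 hs).1, smul_zero]
    rintro ⟨_, _, h3⟩
    rw [card_insert_of_notMem (mem_compl.1 hw)] at h3
    omega
  | succ j =>
    obtain ⟨k, hk, hk2, hk3⟩ := ker_acyclic (bd_mem_KK hs) (bd_bd _) (by rw [← pr_bd hs, hs2, hb])
    exact ⟨sec G v y - k, Submodule.sub_mem _ hs hk, by rw [map_sub, hk2, sub_self],
      by rw [map_sub, hs2, hk3, sub_zero]⟩

/-- the Betti numbers over the double are at most the Betti numbers of the induced set -/
theorem beta_ind_ge [Fintype X] (G : SimpleGraph V) (v : V) (a : V ×ₗ Bool → X → X) (i : ℕ) :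
    beta (dbl G v) (pull F a) (hA v ∪ hB G v) ∅ i ≤ beta G (pull F (ind G v a)) Set.univ ∅ i := by
  have h := mid F (Finset V → (X × Bool → F)) (Finset (V ×ₗ Bool) → (X → F)) F (pr F G v) 0
    (BB G (pull F (ind G v a)) Set.univ ∅ i) (ZZ G (pull F (ind G v a)) Set.univ ∅ i)
    (BB (dbl G v) (pull F a) (hA v ∪ hB G v) ∅ i) (ZZ (dbl G v) (pull F a) (hA v ∪ hB G v) ∅ i) ⊥ ⊥
    (BB_le_ZZ _ _ _ _ _) (BB_le_ZZ _ _ _ _ _) le_rfl ?_ (by rw [Submodule.map_zero]) ?_
  · rw [finrank_bot, Nat.sub_zero, add_zero] at h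
    exact h
  · rintro _ ⟨_, ⟨k, hk, rfl⟩, rfl⟩
    exact ⟨pr F G v k, pr_mem hk, pr_bd hk⟩
  · rintro y ⟨hy, hy0⟩ _
    obtain ⟨z, hz, hz2, hz3⟩ := exists_cycle hy hy0
    exact ⟨z, ⟨hz, hz2⟩, 0, Submodule.zero_mem _, by rw [hz3, add_zero]⟩

end Double

end Pool.Agent.Run7.h606.DB
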